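import Pool.Agent.J4H59.PL.SplA

/-!
# No cell without support
-/

set_option autoImplicit false
set_option linter.unusedSectionVars false

open scoped Classical

namespace Pool.Agent.J4H59.PL

open Pool.Agent.Helper386.PD3 Pool.Agent.J4H59.PD Pool.Agent.J4H59.PE Pool.Agent.J4H59.PF
open Pool.Agent.J4H59.PG Pool.Agent.J4H59.PI Pool.Agent.J4H59.PJ Pool.Agent.Helper158

noncomputable section

variable {G : Type} [Group G] {N H : Subgroup G}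

theorem lvl_peel {t : G} (J : ℕ) (k : ℕ) : ∀ x : G, (x : G ⧸ N) ∈ lvl N t (k + J) →
    ∃ h : G, (h : G ⧸ N) ∈ lvl N t⁻¹ J ∧ ((x * h : G) : G ⧸ N) ∈ lvl N t k := by
  induction k with
  | zero =>
    intro x hx
    rw [zero_add] at hx
    refine ⟨x⁻¹, lvl_symm J hx, ?_⟩
    rw [mul_inv_cancel]
    rfl
  | succ k ih =>
    intro x hx
    rw [show k + 1 + J = (k + J) + 1 by ring] at hx
    obtain ⟨n, hn, c', hc', h1⟩ := hx
    induction c' using QuotientGroup.induction_on with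
    | H a =>
      have h1 : (x : G ⧸ N) = ((n * (t * a) : G) : G ⧸ N) := h1
      rw [eq_comm, QuotientGroup.eq] at h1
      have h2 : ((a * ((n * (t * a))⁻¹ * x) : G) : G ⧸ N) ∈ lvl N t (k + J) := by
        rw [mk_mulK a h1]
        exact hc'
      obtain ⟨h, hh, h3⟩ := ih _ h2
      refine ⟨h, hh, n, hn, _, h3, ?_⟩
      change ((x * h : G) : G ⧸ N) =
        ((n * (t * (a * ((n * (t * a))⁻¹ * x) * h)) : G) : G ⧸ N)
      congr 1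
      group

theorem avoid {X : Type} {L : ℕ → Set X} (hd : ∀ k l c, c ∈ L k → c ∈ L l → k = l) {F : Set X}
    (hF : F.Finite) : ∃ J, ∀ j, J ≤ j → ∀ c ∈ F, c ∉ L j := by
  have h1 : (⋃ c ∈ F, {j | c ∈ L j}).Finite := hF.biUnion fun c _ =>
    Set.Subsingleton.finite fun j hj l hl => hd j l c hj hl
  obtain ⟨M, hM⟩ := h1.bddAbove
  refine ⟨M + 1, fun j hj c hc hcj => ?_⟩
  have h2 := hM (Set.mem_iUnion₂.2 ⟨c, hc, hcj⟩)
  omega

theorem mem_of_mk (hNH : N ≤ H) {h h' : G} (hh : h' ∈ H) (he : (h : G ⧸ N) = (h' : G ⧸ N)) :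
    h ∈ H := by
  rw [eq_comm, QuotientGroup.eq] at he
  have h1 : h = h' * (h'⁻¹ * h) := by group
  rw [h1]
  exact H.mul_mem hh (hNH he)

/-- a bound for the levels -/
theorem one_side (hNH : N ≤ H) {Lp Lm : ℕ → Set (G ⧸ N)}
    (hdp : ∀ k l c, c ∈ Lp k → c ∈ Lp l → k = l) (hdm : ∀ k l c, c ∈ Lm k → c ∈ Lm l → k = l)
    (h1 : ∀ g : G, {c | (∃ k, c ∈ Lp k) ∧ ∃ k, g • c ∈ Lm k}.Finite)
    (h2 : ∀ g : G, {c | (∃ k, c ∈ Lm k) ∧ ∃ k, g • c ∈ Lp k}.Finite)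
    (hpeel : ∀ (J k : ℕ) (x : G), (x : G ⧸ N) ∈ Lp (k + J) →
      ∃ h ∈ H, (h : G ⧸ N) ∈ Lm J ∧ ((x * h : G) : G ⧸ N) ∈ Lp k)
    {B : Subgroup G} (hBH : B ≤ H) (y : G) {α β : G → ℚ}
    (hiα : ∀ b ∈ B, ∀ h ∈ H, α (y * b * h) = α (y * h))
    (hα : Ov {c | ∃ k, c ∈ Lp k} {x | (x : G ⧸ H) = (y : G ⧸ H) ∧ α x ≠ 0})
    (hβ : Ov {c | ∃ k, c ∈ Lm k} {x | (x : G ⧸ H) = (y : G ⧸ H) ∧ β x ≠ 0})
    (hnz : ∀ h ∈ H, ∃ n : N, α (y * h * n) ≠ 0 ∨ β (y * h * n) ≠ 0) (g : G) :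
    ∃ K, ∀ b ∈ B, ∀ k, g⁻¹ • ((y * b : G) : G ⧸ N) ∈ Lp k → k < K := by
  obtain ⟨Tα, hTα⟩ := hα
  obtain ⟨Tβ, hTβ⟩ := hβ
  obtain ⟨J, hJ⟩ := avoid hdm (Set.Finite.biUnion (Finset.finite_toSet Tα)
    fun g' _ => h2 (g'⁻¹ * y))
  obtain ⟨J', hJ'⟩ := avoid hdp (Set.Finite.biUnion (Finset.finite_toSet Tβ)
    fun g' _ => h1 (g'⁻¹ * g))
  refine ⟨J' + J, fun b hb k hk => ?_⟩
  by_contra hcon
  obtain ⟨l, rfl⟩ : ∃ l, k = l + J := ⟨k - J, by omega⟩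
  have hl : J' ≤ l := by omega
  obtain ⟨h, hh, hhm, hhp⟩ := hpeel J l (g⁻¹ * (y * b)) hk
  obtain ⟨n, hn⟩ := hnz (b * h) (H.mul_mem (hBH hb) hh)
  rcases hn with hn | hn
  · have h3 : α (y * (h * n)) ≠ 0 := by
      rw [← hiα b hb (h * n) (H.mul_mem hh (hNH n.2))]
      have h4 : y * b * (h * n) = y * (b * h) * n := by group
      rw [h4]
      exact hn
    obtain ⟨g', hg', h4⟩ := hTα _ ⟨mk_mulK y (H.mul_mem hh (hNH n.2)), h3⟩
    refine hJ J (le_refl J) (h : G ⧸ N) (Set.mem_iUnion₂.2 ⟨g', hg', ⟨J, hhm⟩, ?_⟩) hhm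
    have h5 : (g'⁻¹ * y) • (h : G ⧸ N) = g'⁻¹ • ((y * (h * n) : G) : G ⧸ N) := by
      rw [← mul_assoc, mk_mulK (y * h) n.2]
      change ((g'⁻¹ * y * h : G) : G ⧸ N) = ((g'⁻¹ * (y * h) : G) : G ⧸ N)
      rw [mul_assoc]
    rw [h5]
    exact h4
  · have hx : ((y * (b * h) * n : G) : G ⧸ H) = (y : G ⧸ H) := by
      rw [mul_assoc]
      exact mk_mulK y (H.mul_mem (H.mul_mem (hBH hb) hh) (hNH n.2))
    obtain ⟨g', hg', h4⟩ := hTβ _ ⟨hx, hn⟩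
    refine hJ' l hl ((g⁻¹ * (y * b) * h : G) : G ⧸ N)
      (Set.mem_iUnion₂.2 ⟨g', hg', ⟨l, hhp⟩, ?_⟩) hhp
    have h5 : (g'⁻¹ * g) • ((g⁻¹ * (y * b) * h : G) : G ⧸ N) =
        g'⁻¹ • ((y * (b * h) * n : G) : G ⧸ N) := by
      rw [mk_mulK (y * (b * h)) n.2]
      change ((g'⁻¹ * g * (g⁻¹ * (y * b) * h) : G) : G ⧸ N) = ((g'⁻¹ * (y * (b * h)) : G) : G ⧸ N)
      congr 1
      group
    rw [h5]
    exact h4

/-- the trivial subgroup -/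
theorem allDer_bot {n : ℕ} {w : G →* ℤˣ} {e0 e1 e2 e3 d0 d1 d2 : MR G n}
    (h : Full w e0 e1 e2 e3 d0 d1 d2) (hG : AllDer (G := G) (RR G))
    (htf : ∀ (x : G) (k : ℤ), k ≠ 0 → x ^ k = 1 → x = 1) {B : Subgroup G}
    (hB : ∀ b ∈ B, b = 1) : AllDer (G := G) (famF B).sub := by
  let _ : MulAction B Unit :=
    { smul := fun _ x => x
      one_smul := fun _ => rfl
      mul_smul := fun _ _ _ => rfl }
  refine allDer_pr1 h hG (pr1_of_tree Unit (⊥ : SimpleGraph Unit) ?_ ?_ ?_ htf)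
  · refine ⟨⟨fun x y => ?_⟩, SimpleGraph.isAcyclic_bot⟩
    cases x
    cases y
    exact SimpleGraph.Reachable.refl _
  · intro b x y hxy
    exact hxy
  · intro b x _
    exact Subtype.ext (hB b b.2)

theorem eqG_mono {S : Finset G} {E E' : Set (G ⧸ H)} (hEE : E ⊆ E') {a b : G}
    (h : EqG S H E' a b) : EqG S H E a b := by
  induction h with
  | rel a b h =>
    obtain ⟨s, hs, rfl, h1, h2⟩ := h
    exact Relation.EqvGen.rel _ _ ⟨s, hs, rfl, fun h => h1 (hEE h), fun h => h2 (hEE h)⟩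
  | refl a => exact Relation.EqvGen.refl _
  | symm a b _ ih => exact ih.symm
  | trans a b c _ _ ih ih' => exact ih.trans ih'

/-- The second case: the index of `H` is finite. -/
theorem case_B {n : ℕ} {w : G →* ℤˣ} {e0 e1 e2 e3 d0 d1 d2 : MR G n}
    (h : Full w e0 e1 e2 e3 d0 d1 d2) (hG : AllDer (G := G) (RR G))
    (htf : ∀ (x : G) (k : ℤ), k ≠ 0 → x ^ k = 1 → x = 1) (hNinf : Infinite N)
    (hNH : N ≤ H) {S : Finset G} (hS : Subgroup.closure (S : Set G) = ⊤)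
    {Lp Lm : ℕ → Set (G ⧸ N)}
    (hdp : ∀ k l c, c ∈ Lp k → c ∈ Lp l → k = l) (hdm : ∀ k l c, c ∈ Lm k → c ∈ Lm l → k = l)
    (hfp : ∀ k, (Lp k).Finite) (hfm : ∀ k, (Lm k).Finite)
    (h1 : ∀ g : G, {c | (∃ k, c ∈ Lp k) ∧ ∃ k, g • c ∈ Lm k}.Finite)
    (h2 : ∀ g : G, {c | (∃ k, c ∈ Lm k) ∧ ∃ k, g • c ∈ Lp k}.Finite)
    (hpp : ∀ (J k : ℕ) (x : G), (x : G ⧸ N) ∈ Lp (k + J) →
      ∃ h ∈ H, (h : G ⧸ N) ∈ Lm J ∧ ((x * h : G) : G ⧸ N) ∈ Lp k)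
    (hpm : ∀ (J k : ℕ) (x : G), (x : G ⧸ N) ∈ Lm (k + J) →
      ∃ h ∈ H, (h : G ⧸ N) ∈ Lp J ∧ ((x * h : G) : G ⧸ N) ∈ Lm k)
    (hRp : ∀ c ∈ {c | ∃ k, c ∈ Lp k}, pu H c = ((1 : G) : G ⧸ H))
    (hRm : ∀ c ∈ {c | ∃ k, c ∈ Lm k}, pu H c = ((1 : G) : G ⧸ H))
    {E : Set (G ⧸ H)} (hE : E.Finite) (D : Set G)
    (hD1 : ∀ x : G, (x : G ⧸ H) ∉ E → ∃ n : N, x * n ∈ D)
    (hfree : ∀ x : G, (x : G ⧸ H) ∉ E → ∀ n ∈ N, EqG S H E x (x * n) → n = 1)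
    (hcov : ∀ a : G ⧸ H, Ov {c | ∃ k, c ∈ Lp k ∨ c ∈ Lm k} {x | (x : G ⧸ H) = a})
    {α β : G → ℚ} (hab : ∀ x, α x + β x = if x ∈ D then 1 else 0)
    (hα1 : ∀ g : G, Ov {c | ∃ k, c ∈ Lp k} {x | α (g⁻¹ * x) ≠ α x})
    (hβ1 : ∀ g : G, Ov {c | ∃ k, c ∈ Lm k} {x | β (g⁻¹ * x) ≠ β x})
    (hα2 : ∀ a : G ⧸ H, Ov {c | ∃ k, c ∈ Lp k} {x | (x : G ⧸ H) = a ∧ α x ≠ 0})
    (hβ2 : ∀ a : G ⧸ H, Ov {c | ∃ k, c ∈ Lm k} {x | (x : G ⧸ H) = a ∧ β x ≠ 0}) :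
    Finite (G ⧸ H) := by
  by_contra hfinH
  have hinf : Infinite (G ⧸ H) := not_finite_iff_infinite.1 hfinH
  let E' : Set (G ⧸ H) := (E ∪ {((1 : G) : G ⧸ H)}) ∪ ⋃ s ∈ S,
    ((fun x : G => (x : G ⧸ H)) '' {x | α (s⁻¹ * x) ≠ α x} ∪
      (fun x : G => (x : G ⧸ H)) '' {x | β (s⁻¹ * x) ≠ β x})
  have hE' : E'.Finite := by
    refine (hE.union (Set.finite_singleton _)).union ?_
    exact Set.Finite.biUnion S.finite_toSet fun s _ =>
      (Ov.cos hNH hRp (hα1 s)).union (Ov.cos hNH hRm (hβ1 s))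
  have hEE : E ⊆ E' := fun a ha => Or.inl (Or.inl ha)
  have hEqα : ∀ a b : G, EqG S H E' a b → α a = α b := by
    intro a b hab
    induction hab with
    | rel a b h =>
      obtain ⟨s, hs, rfl, h1, h2⟩ := h
      by_contra hne
      apply h2
      refine Or.inr (Set.mem_iUnion₂.2 ⟨s, hs, Or.inl ⟨s * a, ?_, rfl⟩⟩)
      change α (s⁻¹ * (s * a)) ≠ α (s * a)
      rwa [inv_mul_cancel_left]
    | refl a => rfl
    | symm a b _ ih => exact ih.symm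
    | trans a b c _ _ ih ih' => exact ih.trans ih'
  have hEqβ : ∀ a b : G, EqG S H E' a b → β a = β b := by
    intro a b hab
    induction hab with
    | rel a b h =>
      obtain ⟨s, hs, rfl, h1, h2⟩ := h
      by_contra hne
      apply h2
      refine Or.inr (Set.mem_iUnion₂.2 ⟨s, hs, Or.inr ⟨s * a, ?_, rfl⟩⟩)
      change β (s⁻¹ * (s * a)) ≠ β (s * a)
      rwa [inv_mul_cancel_left]
    | refl a => rfl
    | symm a b _ ih => exact ih.symm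
    | trans a b c _ _ ih ih' => exact ih.trans ih'
  have hcomp : ∀ y : G, (y : G ⧸ H) ∉ E' → {c' | EqX S H E' c' (y : G ⧸ H)}.Finite := by
    intro y hy
    have hyE : (y : G ⧸ H) ∉ E := fun h => hy (hEE h)
    set B := BY S H E' y with hBdef
    have hBH : B ≤ H := BY_le y
    have hbot : B ⊓ N = ⊥ := by
      rw [eq_bot_iff]
      rintro x ⟨hx, hxN⟩
      exact hfree y hyE x hxN (eqG_mono hEE hx.2).symm
    have hnz : ∀ h ∈ H, ∃ n : N, α (y * h * n) ≠ 0 ∨ β (y * h * n) ≠ 0 := by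
      intro h hh
      obtain ⟨n, hn⟩ := hD1 (y * h) (by rwa [mk_mulK y hh])
      refine ⟨n, ?_⟩
      by_contra hcon
      rw [not_or, not_not, not_not] at hcon
      have h3 := hab (y * h * n)
      rw [hcon.1, hcon.2, if_pos hn] at h3
      norm_num at h3
    have hnz' : ∀ h ∈ H, ∃ n : N, β (y * h * n) ≠ 0 ∨ α (y * h * n) ≠ 0 := by
      intro h hh
      obtain ⟨n, hn⟩ := hnz h hh
      exact ⟨n, hn.symm⟩
    choose Kp hKp using one_side hNH hdp hdm h1 h2 hpp hBH y (α := α) (β := β)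
      (fun b hb h hh => hEqα _ _ (hb.2.mul_right hh)) (hα2 _) (hβ2 _) hnz
    choose Km hKm using one_side hNH hdm hdp h2 h1 hpm hBH y (α := β) (β := α)
      (fun b hb h hh => hEqβ _ _ (hb.2.mul_right hh)) (hβ2 _) (hα2 _) hnz'
    obtain ⟨T, hT⟩ := hcov (y : G ⧸ H)
    have hB1 : ∀ b ∈ B, b = 1 := by
      intro b hb
      refine eq_one_of_cells htf hbot hb y (F := ⋃ g ∈ T, (fun c => g • c) ''
        ((⋃ k ∈ Finset.range (Kp g), Lp k) ∪ ⋃ k ∈ Finset.range (Km g), Lm k)) ?_ fun k => ?_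
      · refine Set.Finite.biUnion T.finite_toSet fun g _ => Set.Finite.image _ ?_
        exact (Set.Finite.biUnion (Finset.finite_toSet _) fun k _ => hfp k).union
          (Set.Finite.biUnion (Finset.finite_toSet _) fun k _ => hfm k)
      · have hbk : b ^ k ∈ B := B.pow_mem hb k
        obtain ⟨g, hg, l, hl⟩ := hT (y * b ^ k) (mk_mulK y (hBH hbk))
        refine Set.mem_iUnion₂.2 ⟨g, hg, g⁻¹ • ((y * b ^ k : G) : G ⧸ N), ?_, smul_inv_smul _ _⟩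
        rcases hl with hl | hl
        · exact Or.inl (Set.mem_iUnion₂.2 ⟨l, Finset.mem_range.2 (hKp g _ hbk l hl), hl⟩)
        · exact Or.inr (Set.mem_iUnion₂.2 ⟨l, Finset.mem_range.2 (hKm g _ hbk l hl), hl⟩)
    have hK : B.relIndex H = 0 := by
      by_contra hcon
      have h1 : B.relIndex N ≠ 0 := mt (Subgroup.relIndex_eq_zero_of_le_right hNH) hcon
      rw [← Subgroup.inf_relIndex_right, hbot, Subgroup.relIndex_bot_left] at h1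
      exact h1 (Nat.card_eq_zero_of_infinite)
    exact comp_finite hS hE' ⟨_, Or.inl (Or.inr rfl)⟩ y hy (allDer_bot h hG htf hB1) hK
  apply hfinH
  rw [← Set.finite_univ_iff]
  refine (hE'.union (fin_comps hS hE' hinf)).subset fun c _ => ?_
  by_cases hc : c ∈ E'
  · exact Or.inl hc
  · right
    refine ⟨hc, ?_⟩
    induction c using QuotientGroup.induction_on with
    | H y => exact hcomp y hc

end

end Pool.Agent.J4H59.PL
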