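import Pool.Agent.J4H59.PL.CasB

/-!
# The main argument: finitely many translates of the double cosets cover the group
-/

set_option autoImplicit false
set_option linter.unusedSectionVars false

open scoped Classical

namespace Pool.Agent.J4H59.PL

open Pool.Agent.Helper386.PD3 Pool.Agent.J4H59.PD Pool.Agent.J4H59.PE Pool.Agent.J4H59.PF
open Pool.Agent.J4H59.PG Pool.Agent.J4H59.PI Pool.Agent.J4H59.PJ Pool.Agent.Helper158

noncomputable section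

theorem eqG_notMem {G : Type} [Group G] {H : Subgroup G} {S : Finset G} {E : Set (G ⧸ H)}
    {a b : G} (h : EqG S H E a b) : ((a : G ⧸ H) ∉ E ↔ (b : G ⧸ H) ∉ E) := by
  induction h with
  | rel a b h =>
    obtain ⟨s, hs, rfl, h1, h2⟩ := h
    exact ⟨fun _ => h2, fun _ => h1⟩
  | refl a => exact Iff.rfl
  | symm a b _ ih => exact ih.symm
  | trans a b c _ _ ih ih' => exact ih.trans ih'

theorem hpow_of {G : Type} [Group G] {N H : Subgroup G} (hcm : ∀ h ∈ H, (As N h).index ≠ 0) :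
    ∀ u ∈ N, ∀ h ∈ H, ∃ e : ℕ, 0 < e ∧ (h⁻¹ * u * h) ^ e ∈ N := by
  intro u hu h hh
  obtain ⟨e, he, -, he'⟩ := Subgroup.exists_pow_mem_of_index_ne_zero (hcm _ (H.inv_mem hh))
    (⟨u, hu⟩ : N)
  refine ⟨e, he, ?_⟩
  have h1 : h⁻¹ * (((⟨u, hu⟩ : N) ^ e : N) : G) * h⁻¹⁻¹ ∈ N := he'
  have h2 : (h⁻¹ * u * h) ^ e = h⁻¹ * (((⟨u, hu⟩ : N) ^ e : N) : G) * h⁻¹⁻¹ := by
    have h3 := conj_pow (a := h⁻¹) (b := u) (i := e)
    rw [inv_inv] at h3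
    rw [h3, inv_inv]
    rfl
  rw [h2]
  exact h1

/-- The splitting of the derivations. -/
theorem split_core (hAB : S_AB) (hSEC : S_SEC) {G : Type} [Group G] {n : ℕ} {w : G →* ℤˣ}
    {e0 e1 e2 e3 d0 d1 d2 : MR G n}
    (h : Full w e0 e1 e2 e3 d0 d1 d2) (hG : AllDer (G := G) (RR G))
    (htf : ∀ (x : G) (k : ℤ), k ≠ 0 → x ^ k = 1 → x = 1) {N H : Subgroup G}
    (hfg : N.FG) (hNinf : Infinite N) (hN : AllDer (G := N) (RR N))
    (hNH : N ≤ H) (hcm : ∀ h ∈ H, (As N h).index ≠ 0) {t : G} (ht : t ∈ H)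
    (hd : ∀ k l c, c ∈ lvl N t k → c ∈ lvl N t l → k = l)
    (hcover : ∀ T : Finset G, ∃ y : G ⧸ N, ∀ g ∈ T, g⁻¹ • y ∉ RD N t)
    {S : Finset G} (hS : Subgroup.closure (S : Set G) = ⊤) {I : Type} (𝒱 : Vq N (OmI I G))
    (hp : ∀ x : OmI I G, 𝒱.p x = (x.2 : G ⧸ N))
    (hfin : ∀ f ∈ 𝒱.V, ∀ i, {g : G | f (omk i g) ≠ 0}.Finite)
    {d : ℕ} {x : Fin d → N} (hx : Subgroup.closure (Set.range x) = ⊤)
    (δ : G → FQ (OmI I G)) (hδ : Der δ)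
    (hδM : ∀ g, δ g ∈ 𝒱.MQ (le_refl N)
      ({c | ∃ k, c ∈ lvl N t k} ∪ {c | ∃ k, c ∈ lvl N t⁻¹ k})) :
    ∃ (δp δm : G → FQ (OmI I G)) (μ : FQ (OmI I G)), Der δp ∧ Der δm ∧
      (∀ g, δp g ∈ 𝒱.MQ (le_refl N) {c | ∃ k, c ∈ lvl N t k}) ∧
      (∀ g, δm g ∈ 𝒱.MQ (le_refl N) {c | ∃ k, c ∈ lvl N t⁻¹ k}) ∧
      μ ∈ 𝒱.MQ (le_refl N) ({c | ∃ k, c ∈ lvl N t k} ∪ {c | ∃ k, c ∈ lvl N t⁻¹ k}) ∧
      ∀ g, δ g = δp g + δm g + (gof g • μ - μ) := by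
  set Rp : Set (G ⧸ N) := {c | ∃ k, c ∈ lvl N t k} with hRpdef
  set Rm : Set (G ⧸ N) := {c | ∃ k, c ∈ lvl N t⁻¹ k} with hRmdef
  have hRpH : ∀ c ∈ Rp, pu H c = ((1 : G) : G ⧸ H) := by
    rintro c ⟨k, hk⟩
    obtain ⟨g, hg, rfl⟩ := lvl_H hNH ht k hk
    rw [pu_mk hNH, eq_comm, QuotientGroup.eq, inv_one, one_mul]
    exact hg
  have hRmH : ∀ c ∈ Rm, pu H c = ((1 : G) : G ⧸ H) := by
    rintro c ⟨k, hk⟩
    obtain ⟨g, hg, rfl⟩ := lvl_H hNH (H.inv_mem ht) k hk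
    rw [pu_mk hNH, eq_comm, QuotientGroup.eq, inv_one, one_mul]
    exact hg
  have hR : ∀ c ∈ Rp ∪ Rm, pu H c = ((1 : G) : G ⧸ H) := by
    rintro c (hc | hc)
    · exact hRpH c hc
    · exact hRmH c hc
  have hRpN : ∀ n ∈ N, ∀ c ∈ Rp, n • c ∈ Rp := by
    rintro n hn c ⟨k, hk⟩
    exact ⟨k, lvl_inv k hn hk⟩
  have hRmN : ∀ n ∈ N, ∀ c ∈ Rm, n • c ∈ Rm := by
    rintro n hn c ⟨k, hk⟩
    exact ⟨k, lvl_inv k hn hk⟩
  have hRN : ∀ n ∈ N, ∀ c ∈ Rp ∪ Rm, n • c ∈ Rp ∪ Rm := by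
    rintro n hn c (hc | hc)
    · exact Or.inl (hRpN n hn c hc)
    · exact Or.inr (hRmN n hn c hc)
  have hpow := hpow_of (N := N) hcm
  have hopp1 : ∀ g : G, {c | (∃ k, c ∈ lvl N t k) ∧ ∃ k, g • c ∈ lvl N t⁻¹ k}.Finite :=
    fun g => opp_D hNH hcm ht hd g
  have hopp2 : ∀ g : G, {c | (∃ k, c ∈ lvl N t⁻¹ k) ∧ ∃ k, g • c ∈ lvl N t k}.Finite := by
    intro g
    refine ((hopp1 g⁻¹).image fun c => g⁻¹ • c).subset ?_
    rintro c ⟨hc, hc'⟩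
    refine ⟨g • c, ⟨hc', ?_⟩, inv_smul_smul _ _⟩
    rw [inv_smul_smul]
    exact hc
  have hRpne : Rp.Nonempty := ⟨((1 : G) : G ⧸ N), 0, rfl⟩
  have hRmne : Rm.Nonempty := ⟨((1 : G) : G ⧸ N), 0, rfl⟩
  obtain ⟨φ, c, hφ, hc, hm⟩ := exists_potq 𝒱 hp hfin (le_refl N) (Rp ∪ Rm) hx hN hNinf
    (fun g => ⟨δ g, hδM g⟩) (fun g h => Subtype.ext (hδ g h))
  obtain ⟨u, hu1⟩ := exists_ne (1 : N)
  have hu1 : (u : G) ≠ 1 := fun h => hu1 (Subtype.ext h)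
  choose T hT using small_coset 𝒱 hp hNH (Rp ∪ Rm) hR hRN hu1 (hpow u u.2) htf _ φ c hφ hc
  let m : FQ (OmI I G) := fun z => φ z.1 z.2 - c z.1 z.2
  have hm' : ∀ (g : G) (z : OmI I G), m (g⁻¹ • z) - m z = δ g z := by
    rintro g ⟨i, y⟩
    exact hm g i y
  have hmT : ∀ (i : I) (y : G), m (omk i y) ≠ 0 →
      ∃ g ∈ T (y : G ⧸ H), g⁻¹ • (y : G ⧸ N) ∈ Rp ∪ Rm := by
    intro i y hy
    exact hT (y : G ⧸ H) i y rfl fun h => hy (sub_eq_zero.2 h)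
  let E : Set (G ⧸ H) := ⋃ s ∈ S, (fun y : G => (y : G ⧸ H)) '' {y | ∃ i, δ s (omk i y) ≠ 0}
  have hE : E.Finite := Set.Finite.biUnion S.finite_toSet fun s _ =>
    Ov.cos hNH hR (MQ_ov 𝒱 hp (hδM s))
  have hEq : ∀ a b : G, EqG S H E a b → ∀ i, φ i a = φ i b := by
    intro a b hab i
    induction hab with
    | rel a b h =>
      obtain ⟨s, hs, rfl, h1, h2⟩ := h
      have h3 := hφ s i (s * a)
      rw [inv_mul_cancel_left] at h3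
      have h4 : δ s (omk i (s * a)) = 0 := by
        by_contra hcon
        exact h2 (Set.mem_iUnion₂.2 ⟨s, hs, s * a, ⟨i, hcon⟩, rfl⟩)
      have h3 : φ i a - φ i (s * a) = δ s (omk i (s * a)) := h3
      rw [h4] at h3
      linarith
    | refl a => rfl
    | symm a b _ ih => exact ih.symm
    | trans a b c _ _ ih ih' => exact ih.trans ih'
  have hEc : ∀ a b : G, EqG S H E a b → ∀ i, c i a = c i b := by
    intro a b hab i
    obtain ⟨n, hn⟩ := ((hc i a).union (hc i b)).exists_notMem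
    rw [Set.mem_union, not_or] at hn
    have h3 : φ i (a * n) = c i a := not_not.1 hn.1
    have h4 : φ i (b * n) = c i b := not_not.1 hn.2
    rw [← h3, ← h4]
    exact hEq _ _ (hab.mul_right (hNH n.2)) i
  have hEm : ∀ a b : G, EqG S H E a b → ∀ i, m (omk i a) = m (omk i b) := by
    intro a b hab i
    change φ i a - c i a = φ i b - c i b
    rw [hEq a b hab i, hEc a b hab i]
  have hcst : ∀ (i : I) (y : G) (n : N), c i (y * n) = c i y := by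
    intro i y n
    have h1 : {k : N | φ i (y * ((n * k : N) : G)) ≠ c i y}.Finite :=
      Set.Finite.preimage (f := fun k : N => n * k) (fun _ _ _ _ h => mul_left_cancel h) (hc i y)
    obtain ⟨k, hk⟩ := (h1.union (hc i (y * n))).exists_notMem
    rw [Set.mem_union, not_or] at hk
    have h3 : φ i (y * ((n * k : N) : G)) = c i y := not_not.1 hk.1
    have h4 : φ i (y * n * k) = c i (y * n) := not_not.1 hk.2
    rw [← h3, ← h4, Subgroup.coe_mul, mul_assoc]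
  let Z : Set G := {y | (y : G ⧸ H) ∉ E ∧ ∃ i, ∃ n : N, m (omk i (y * n)) ≠ 0}
  have hZN : ∀ a ∈ Z, ∀ n ∈ N, a * n ∈ Z := by
    rintro a ⟨ha, i, k, hk⟩ n hn
    refine ⟨?_, i, (⟨n, hn⟩ : N)⁻¹ * k, ?_⟩
    · rwa [mk_mulK a (hNH hn)]
    · have h1 : a * n * (((⟨n, hn⟩ : N)⁻¹ * k : N) : G) = a * k := by
        change a * n * (n⁻¹ * (k : G)) = a * k
        group
      rw [h1]
      exact hk
  have hZq : ∀ a b, a ∈ Z → EqG S H E a b → b ∈ Z := by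
    rintro a b ⟨ha, i, k, hk⟩ hab
    refine ⟨(eqG_notMem hab).1 ha, i, k, ?_⟩
    rw [← hEm _ _ (hab.mul_right (hNH k.2)) i]
    exact hk
  have hfreeZ : ∀ a ∈ Z, ∀ n ∈ N, EqG S H E a (a * n) → n = 1 := by
    rintro a ⟨ha, i, k, hk⟩ n hn hab
    by_contra hn1
    -- powers of a conjugate
    have hb : (k : G)⁻¹ * n * k ∈ N := N.mul_mem (N.mul_mem (N.inv_mem k.2) hn) k.2
    have hb1 : (k : G)⁻¹ * n * k ≠ 1 := by
      intro h1
      apply hn1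
      have h2 : n = (k : G) * ((k : G)⁻¹ * n * k) * (k : G)⁻¹ := by group
      rw [h2, h1]
      group
    have hbB : (k : G)⁻¹ * n * k ∈ BY S H E (a * k) := by
      refine ⟨hNH hb, ?_⟩
      have h1 : a * k * ((k : G)⁻¹ * n * k) = a * n * k := by group
      rw [h1]
      exact (hab.mul_right (hNH k.2)).symm
    have hord : ∀ j : ℤ, j ≠ 0 → ((k : G)⁻¹ * n * k) ^ j ≠ 1 := fun j hj h1 => hb1 (htf _ j hj h1)
    have hinj : Function.Injective fun j : ℤ => (⟨_, hb⟩ : N) ^ j := by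
      intro j l hkl
      have h1 : ((k : G)⁻¹ * n * k) ^ j = ((k : G)⁻¹ * n * k) ^ l := congrArg Subtype.val hkl
      exact infinite_order hord 1 (by simpa using h1)
    obtain ⟨_, ⟨j, rfl⟩, hj⟩ :=
      (Set.infinite_range_of_injective hinj).exists_notMem_finite (hc i (a * k))
    have hj : φ i (a * k * (((⟨_, hb⟩ : N) ^ j : N) : G)) = c i (a * k) := not_not.1 hj
    apply hk
    change φ i (a * k) - c i (a * k) = 0
    rw [sub_eq_zero, ← hj]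
    refine (hEq _ _ ?_ i).symm
    exact ((BY S H E (a * k)).zpow_mem hbB j).2
  obtain ⟨D, hDZ, hDq, hDu⟩ := hSEC G N (EqG S H E)
    ⟨fun a => Relation.EqvGen.refl a, fun h => h.symm, fun h h' => h.trans h'⟩
    (fun a b hab n hn => hab.mul_right (hNH hn)) Z hZN hZq hfreeZ
  have hD0 : ∀ y ∈ D, ∀ n ∈ N, y * n ∈ D → n = 1 := by
    intro y hy n hn hyn
    obtain ⟨k, -, huniq⟩ := hDu y (hDZ hy)
    rw [huniq n ⟨hn, hyn⟩, huniq 1 ⟨N.one_mem, by rwa [mul_one]⟩]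
  have hDT : ∀ a : G ⧸ H, Ov (Rp ∪ Rm) {y | (y : G ⧸ H) = a ∧ y ∈ D} := by
    intro a
    refine ⟨T a, ?_⟩
    rintro y ⟨rfl, hy⟩
    obtain ⟨-, i, k, hk⟩ := hDZ hy
    have h1 := hmT i _ hk
    rw [mk_mulK y (hNH k.2), mk_mulK y k.2] at h1
    exact h1
  have hDo := ov_D hS hE D (fun y hy => (hDZ hy).1) hDq hDT
  obtain ⟨α, β, hab, hα, hβ, hα1, hβ1, hα2, hβ2⟩ := hAB G n w e0 e1 e2 e3 d0 d1 d2 h htf N H hfg
    hNinf hN hNH hpow Rp Rm hRpne hRmne hR hRpN hRmN hopp1 D hD0 hDo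
  by_cases hz : ∃ y₀ : G, ∀ i, ∀ k : N, m (omk i (y₀ * k)) = 0
  · obtain ⟨y₀, hy₀⟩ := hz
    refine split_A 𝒱 hp hNH hR m δ hδM hm' (vloc' 𝒱 m δ hm' (fun g c => (hδM g).1 c)
      (y₀ : G ⧸ N) ?_) (fun a => ?_) hE D ?_ hab hα hβ hα1 hβ1 hα2 hβ2
    · rintro ⟨i, y⟩ hz
      have hz : (y : G ⧸ N) = (y₀ : G ⧸ N) := (hp (omk i y)).symm.trans hz
      have h1 := hy₀ i ⟨y₀⁻¹ * y, QuotientGroup.eq.1 hz.symm⟩
      have h2 : y₀ * (y₀⁻¹ * y) = y := by group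
      have h3 : m (omk i (y₀ * (y₀⁻¹ * y))) = 0 := h1
      rw [h2] at h3
      exact h3
    · refine ⟨T a, ?_⟩
      rintro y ⟨rfl, i, hi⟩
      exact hmT i y hi
    · intro i y hy hyE
      obtain ⟨k, ⟨hk, hkD⟩, huniq⟩ := hDu y ⟨hyE, i, 1, by rw [Subgroup.coe_one, mul_one]; exact hy⟩
      exact ⟨⟨k, hk⟩, hkD, fun l hl => Subtype.ext (huniq l ⟨l.2, hl⟩)⟩
  · exfalso
    push Not at hz
    have hZE : ∀ y : G, (y : G ⧸ H) ∉ E → y ∈ Z := by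
      intro y hy
      obtain ⟨i, k, hk⟩ := hz y
      exact ⟨hy, i, k, hk⟩
    have hpp : ∀ (J k : ℕ) (y : G), (y : G ⧸ N) ∈ lvl N t (k + J) →
        ∃ g ∈ H, (g : G ⧸ N) ∈ lvl N t⁻¹ J ∧ ((y * g : G) : G ⧸ N) ∈ lvl N t k := by
      intro J k y hy
      obtain ⟨g, hg, hg'⟩ := lvl_peel J k y hy
      obtain ⟨g₁, hg₁, he⟩ := lvl_H hNH (H.inv_mem ht) J hg
      exact ⟨g, mem_of_mk hNH hg₁ he, hg, hg'⟩
    have hpm : ∀ (J k : ℕ) (y : G), (y : G ⧸ N) ∈ lvl N t⁻¹ (k + J) →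
        ∃ g ∈ H, (g : G ⧸ N) ∈ lvl N t J ∧ ((y * g : G) : G ⧸ N) ∈ lvl N t⁻¹ k := by
      intro J k y hy
      obtain ⟨g, hg, hg'⟩ := lvl_peel J k y hy
      rw [inv_inv] at hg
      obtain ⟨g₁, hg₁, he⟩ := lvl_H hNH ht J hg
      exact ⟨g, mem_of_mk hNH hg₁ he, hg, hg'⟩
    have hfinH : Finite (G ⧸ H) := by
      refine case_B h hG htf hNinf hNH hS hd (hd_symm hd) (lvl_finite hNH hcm ht)
        (lvl_finite hNH hcm (H.inv_mem ht)) hopp1 hopp2 hpp hpm hRpH hRmH hE D ?_ ?_ ?_ hab hα1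
        hβ1 hα2 hβ2
      · intro y hy
        obtain ⟨k, ⟨hk, hkD⟩, -⟩ := hDu y (hZE y hy)
        exact ⟨⟨k, hk⟩, hkD⟩
      · intro y hy
        exact hfreeZ y (hZE y hy)
      · intro a
        refine ⟨T a, ?_⟩
        rintro y rfl
        obtain ⟨i, k, hk⟩ := hz y
        have h1 := hmT i _ hk
        rw [mk_mulK y (hNH k.2), mk_mulK y k.2] at h1
        obtain ⟨g, hg, h1⟩ := h1
        refine ⟨g, hg, ?_⟩
        rcases h1 with ⟨l, hl⟩ | ⟨l, hl⟩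
        · exact ⟨l, Or.inl hl⟩
        · exact ⟨l, Or.inr hl⟩
    have hF : Fintype (G ⧸ H) := Fintype.ofFinite _
    obtain ⟨y, hy⟩ := hcover (Finset.univ.biUnion T)
    induction y using QuotientGroup.induction_on with
    | H y =>
      obtain ⟨i, k, hk⟩ := hz y
      have h1 := hmT i _ hk
      rw [mk_mulK y (hNH k.2), mk_mulK y k.2] at h1
      obtain ⟨g, hg, h1⟩ := h1
      apply hy g (Finset.mem_biUnion.2 ⟨_, Finset.mem_univ _, hg⟩)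
      rcases h1 with ⟨l, hl⟩ | ⟨l, hl⟩
      · exact ⟨l, Or.inl hl⟩
      · exact ⟨l, Or.inr hl⟩

/-- The main argument. -/
theorem t_CORE (hAB : S_AB) (hSEC : S_SEC) (hGLU : S_GLU) : S_CORE := by
  intro G _ n w e0 e1 e2 e3 d0 d1 d2 h hfgG hG htf N H hfg hNinf hN hNH hcm t ht hd
  by_contra hcover
  push Not at hcover
  obtain ⟨d, x, hcl⟩ := exists_gens hfg
  have hxG : Subgroup.closure (Set.range fun i => (x i : G)) = N := by
    have h1 : (Set.range fun i => (x i : G)) = N.subtype '' (Set.range x) := by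
      rw [← Set.range_comp]
      rfl
    rw [h1, ← MonoidHom.map_closure, hcl, ← MonoidHom.range_eq_map, Subgroup.range_subtype]
  obtain ⟨S, hS⟩ := Group.fg_def.1 hfgG
  let 𝒱 := VVq x w
  let rp' := coneD N t hd
  let rm := coneD N t⁻¹ (hd_symm hd)
  have hp0 : ((1 : G) : G ⧸ N) ∈ rp'.L 0 := rfl
  have hm0 : ((1 : G) : G ⧸ N) ∈ rm.L 0 := rfl
  have hposne : rp'.R.Nonempty := ⟨_, 0, hp0⟩
  have hnegne : rm.R.Nonempty := ⟨_, 0, hm0⟩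
  have hP : ResInner w (𝒱.V_le_MQ (le_refl N) hposne) :=
    resInner_cone 𝒱 rp' _ hxG (hcm _ ht) hp0 hposne
  have hQ : ResInner w (𝒱.V_le_MQ (le_refl N) hnegne) :=
    resInner_cone 𝒱 rm _ hxG (hcm _ (H.inv_mem ht)) hm0 hnegne
  have hI : AllDer (G := G) (Du w 𝒱.V) := by
    refine hGLU G n w e0 e1 e2 e3 d0 d1 d2 h (FQ (OmI (K1 x) G)) (𝒱.MQ (le_refl N) rp'.R)
      (𝒱.MQ (le_refl N) rm.R) 𝒱.V (𝒱.MQ_inf (le_refl N) hposne hnegne
      (opp_D hNH hcm ht hd)) (𝒱.V_le_MQ (le_refl N) hposne)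
      (𝒱.V_le_MQ (le_refl N) hnegne) hP hQ ?_
    intro δ hδ hδM
    rw [𝒱.MQ_sup (le_refl N)] at hδM ⊢
    exact split_core hAB hSEC h hG htf hfg hNinf hN hNH hcm ht hd hcover hS 𝒱 (fun _ => rfl)
      (VVq_fin x w) hcl δ hδ hδM
  refine contraQ x w hcl hI hN ?_ ?_
  · intro z k hk hz
    apply Subtype.ext
    exact htf z k hk (congrArg Subtype.val hz)
  · obtain ⟨z, hz⟩ := exists_ne (1 : N)
    exact ⟨z, hz⟩

end

end Pool.Agent.J4H59.PL
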