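import Mathlib.Combinatorics.SimpleGraph.Acyclic
import Mathlib.GroupTheory.GroupAction.Basic
import Mathlib.GroupTheory.Commensurable

/-!
# Exact statements of the project CY: groups, graphs and trees
-/

set_option autoImplicit false

namespace Pool.Agent.J4H59.PL

/-- Job DUN (Stallings, Dunwoody): a group which acts transitively on the vertices of a connected
locally finite graph with more than one end acts on a tree, with a hyperbolic element, and such that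
the stabilisers of the vertices of the graph have finite orbits on some edge. -/
def S_DUN : Prop :=
  ∀ (H : Type) [Group H] (O : Type) [MulAction H O] (E : O → O → Prop)
    (_ : ∀ x y, E x y → E y x) (_ : ∀ (h : H) (x y : O), E x y → E (h • x) (h • y))
    (_ : ∀ x : O, {y | E x y}.Finite) (_ : ∀ x y : O, Relation.ReflTransGen E x y)
    (_ : ∀ x y : O, ∃ h : H, h • x = y)
    (X : Set O) (_ : X.Infinite) (_ : Xᶜ.Infinite)
    (_ : {e : O × O | E e.1 e.2 ∧ e.1 ∈ X ∧ e.2 ∉ X}.Finite),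
    ∃ (V : Type) (T : SimpleGraph V) (_ : MulAction H V), T.IsTree ∧
      (∀ (h : H) (a b : V), T.Adj a b → T.Adj (h • a) (h • b)) ∧
      (∃ t : H, ∀ a : V, t • t • a ≠ a) ∧
      ∃ a : V, ∀ o : O, {b | ∃ h : H, h • o = o ∧ b = h • a}.Finite

/-- Job TID (Willis): subgroups tidy above. -/
def S_TID : Prop :=
  ∀ (G : Type) [Group G] (N : Subgroup G) (t : G)
    (_ : t ∈ Subgroup.Commensurable.commensurator N) (_ : ∀ k : ℤ, k ≠ 0 → t ^ k ∉ N),
    ∃ M : Subgroup G, M ≤ N ∧ M.relIndex N ≠ 0 ∧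
      (∀ k : ℕ, ∀ m ∈ M, ∃ a ∈ M, ∃ b ∈ M, t ^ k * m * t = a * t ^ (k + 1) * b) ∧
      ∀ (k l : ℕ) (m m' : G), m ∈ M → m' ∈ M → t ^ k = m * t ^ l * m' → k = l

/-- Job SEC: a section of the action of `N` on the classes. -/
def S_SEC : Prop :=
  ∀ (G : Type) [Group G] (N : Subgroup G) (Eq : G → G → Prop) (_ : Equivalence Eq)
    (_ : ∀ a b, Eq a b → ∀ n ∈ N, Eq (a * n) (b * n))
    (Z : Set G) (_ : ∀ a ∈ Z, ∀ n ∈ N, a * n ∈ Z) (_ : ∀ a b, a ∈ Z → Eq a b → b ∈ Z)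
    (_ : ∀ a ∈ Z, ∀ n ∈ N, Eq a (a * n) → n = 1),
    ∃ D : Set G, D ⊆ Z ∧ (∀ a b, a ∈ D → Eq a b → b ∈ D) ∧
      ∀ a ∈ Z, ∃! n : G, n ∈ N ∧ a * n ∈ D

end Pool.Agent.J4H59.PL
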