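import Pool.Agent.J4H59.PI.Unimod
import Pool.Agent.J4H59.PJ.ConeD

/-!
# Exact statements of the project CY, third part: groups
-/

set_option autoImplicit false

open scoped Classical

namespace Pool.Agent.J4H59.PL

open Pool.Agent.J4H59.PG Pool.Agent.J4H59.PI Pool.Agent.J4H59.PJ

/-- finitely many translates of the double cosets cover the group -/
def Cov {G : Type} [Group G] (N : Subgroup G) (t : G) : Prop :=
  ∃ T : Finset G, ∀ g : G, ∃ x ∈ T, ∃ k : ℤ, ∃ a ∈ N, ∃ b ∈ N, g = x * (a * t ^ k * b)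

/-- tidy above, with disjoint levels -/
structure Tdy {G : Type} [Group G] (N : Subgroup G) (t : G) : Prop where
  comm : t ∈ Subgroup.Commensurable.commensurator N
  mul : ∀ k : ℕ, ∀ m ∈ N, ∃ a ∈ N, ∃ b ∈ N, t ^ k * m * t = a * t ^ (k + 1) * b
  lev : ∀ (k l : ℕ) (m m' : G), m ∈ N → m' ∈ N → t ^ k = m * t ^ l * m' → k = l

/-- Job LNE: lines -/
def S_LNE : Prop :=
  ∀ (G : Type) [Group G] (N : Subgroup G) (t : G) (_ : Tdy N t)
    (_ : ∀ N' : Subgroup G, N' ≤ N → N'.relIndex N ≠ 0 → Cov N' t),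
    ∃ (Y : Finset G) (c : ℕ), ∀ i : ℕ, ∀ a ∈ N, ∀ b ∈ N, ∃ s ≤ i + c, ∃ y ∈ Y, ∃ n ∈ N,
      a * t ^ i * b = y * n * t ^ s

/-- Job CNT: counting -/
def S_CNT : Prop :=
  ∀ (G : Type) [Group G] (N : Subgroup G) (t : G) (_ : Tdy N t)
    (_ : ∀ g ∈ Subgroup.Commensurable.commensurator N, N.relIndex (cc g N) = (cc g N).relIndex N)
    (Y : Finset G) (c : ℕ) (_ : ∀ i : ℕ, ∀ a ∈ N, ∀ b ∈ N, ∃ s ≤ i + c, ∃ y ∈ Y, ∃ n ∈ N,
      a * t ^ i * b = y * n * t ^ s),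
    ∃ C : ℕ, ∀ k : ℕ, (cc (t ^ k) N).relIndex N ≤ C

/-- Job VNA: a normalised subgroup of finite index -/
def S_VNA : Prop :=
  ∀ (G : Type) [Group G] (N : Subgroup G) (t : G) (_ : N.FG)
    (_ : t ∈ Subgroup.Commensurable.commensurator N) (C : ℕ)
    (_ : ∀ k : ℤ, (cc (t ^ k) N).relIndex N ≤ C),
    ∃ M : Subgroup G, M ≤ N ∧ M.relIndex N ≠ 0 ∧ cc t M = M

end Pool.Agent.J4H59.PL
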