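import Pool.Agent.J4H59.PL.MainY
import Pool.Agent.J4H59.PL.Stm3

/-!
# Elements of the commensurator: the fibering theorem
-/

set_option autoImplicit false
set_option linter.unusedSectionVars false

open scoped Classical Pointwise

namespace Pool.Agent.J4H59.PL

open Pool.Agent.Helper386.PD3 Pool.Agent.J4H59.PD Pool.Agent.J4H59.PE Pool.Agent.J4H59.PF
open Pool.Agent.J4H59.PG Pool.Agent.J4H59.PI Pool.Agent.J4H59.PJ Pool.Agent.Helper158

noncomputable section

theorem allDer_sub {G : Type} [Group G] {M N : Subgroup G} (hMN : M ≤ N) (hMi : M.relIndex N ≠ 0)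
    (hN : AllDer (G := N) (RR N)) : AllDer (G := M) (RR M) :=
  allDer_equiv (Subgroup.subgroupOfEquivOfLe hMN) (allDer_fi hN (M.subgroupOf N) hMi)

theorem comm_sub {G : Type} [Group G] {M N : Subgroup G} (hMN : M ≤ N) (hMi : M.relIndex N ≠ 0) :
    Subgroup.Commensurable M N := by
  refine ⟨hMi, ?_⟩
  rw [Subgroup.relIndex_eq_one.2 hMN]
  exact one_ne_zero

/-- unimodularity of subgroups of finite index -/
theorem uni_sub {G : Type} [Group G] {M N : Subgroup G} (hMN : M ≤ N) (hMi : M.relIndex N ≠ 0)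
    (h : ∀ g ∈ Subgroup.Commensurable.commensurator N, N.relIndex (cc g N) = (cc g N).relIndex N)
    (g : G) (hg : g ∈ Subgroup.Commensurable.commensurator M) :
    M.relIndex (cc g M) = (cc g M).relIndex M := by
  have hco := comm_sub hMN hMi
  have hgN : g ∈ Subgroup.Commensurable.commensurator N := by rw [← hco.eq]; exact hg
  have h0 := mem_comm.1 hgN
  have h1 : qi N (cc g N) = 1 := by
    have h2 : (N.relIndex (cc g N) : ℚ) ≠ 0 := by exact_mod_cast h0.2
    unfold qi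
    rw [← h g hgN]
    exact div_self h2
  have h2 : qi M (cc g M) = 1 := by
    rw [← qi_mul (X := M) (Y := N) (Z := cc g M) hco (hco.symm.trans (mem_comm.1 hg).symm),
      ← qi_mul (X := N) (Y := cc g N) (Z := cc g M) h0.symm (cc_comm hco.symm), h1, one_mul,
      qi_cc]
    unfold qi
    have h3 : (M.relIndex N : ℚ) ≠ 0 := by exact_mod_cast hco.1
    have h4 : (N.relIndex M : ℚ) ≠ 0 := by exact_mod_cast hco.2
    field_simp
  have h3 : (M.relIndex (cc g M) : ℚ) ≠ 0 := by exact_mod_cast (mem_comm.1 hg).2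
  have h4 : ((cc g M).relIndex M : ℚ) / (M.relIndex (cc g M) : ℚ) = 1 := h2
  rw [div_eq_one_iff_eq h3] at h4
  exact_mod_cast h4.symm

/-- one end -/
theorem fib_one (hL : S_LNE) (hC : S_CNT) (hV : S_VNA) {G : Type} [Group G] {n : ℕ}
    {w : G →* ℤˣ} {e0 e1 e2 e3 d0 d1 d2 : MR G n}
    (h : Full w e0 e1 e2 e3 d0 d1 d2) (hfgG : Group.FG G) (hG : AllDer (G := G) (RR G))
    (htf : ∀ (x : G) (k : ℤ), k ≠ 0 → x ^ k = 1 → x = 1) {N : Subgroup G}
    (hfg : N.FG) (hne : N ≠ ⊥) (hN : AllDer (G := N) (RR N)) {t : G}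
    (ht : t ∈ Subgroup.Commensurable.commensurator N) (hpow : ∀ k : ℤ, k ≠ 0 → t ^ k ∉ N)
    (hum : ∀ g ∈ Subgroup.Commensurable.commensurator N,
      N.relIndex (cc g N) = (cc g N).relIndex N) :
    ∃ M : Subgroup G, M ≤ N ∧ M.relIndex N ≠ 0 ∧ cc t M = M ∧ Cov M t := by
  have hNinf : Infinite N := inf_of_ne_bot htf hne
  have hcov : ∀ N' : Subgroup G, N' ≤ N → N'.relIndex N ≠ 0 → Cov N' t := by
    intro N' hN' hi
    have hne' : N' ≠ ⊥ := by
      intro h1
      rw [h1, Subgroup.relIndex_bot_left] at hi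
      exact hi Nat.card_eq_zero_of_infinite
    exact one G n w e0 e1 e2 e3 d0 d1 d2 h hfgG hG htf N' (fg_of_fi hfg hN' hi) hne'
      (allDer_sub hN' hi hN) t (by rw [(comm_sub hN' hi).eq]; exact ht)
      (fun k hk h1 => hpow k hk (hN' h1))
  obtain ⟨M, hMN, hMi, hmul, hlev⟩ := Pool.Agent.J4H69.CY.t_TID G N t ht hpow
  have hco := comm_sub hMN hMi
  have htM : t ∈ Subgroup.Commensurable.commensurator M := by rw [hco.eq]; exact ht
  have hT : Tdy M t := ⟨htM, hmul, hlev⟩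
  have humM := uni_sub hMN hMi hum
  have hmulM : ∀ N' : Subgroup G, N' ≤ M → N'.relIndex M ≠ 0 → N'.relIndex N ≠ 0 := by
    intro N' h1 h2
    rw [← Subgroup.relIndex_mul_relIndex N' M N h1 hMN]
    exact mul_ne_zero h2 hMi
  obtain ⟨Y, c, hYc⟩ := hL G M t hT fun N' h1 h2 => hcov N' (h1.trans hMN) (hmulM N' h1 h2)
  obtain ⟨C, hCk⟩ := hC G M t hT humM Y c hYc
  obtain ⟨M', hM'M, hM'i, hM't⟩ := hV G M t (fg_of_fi hfg hMN hMi) htM C (by
    intro k
    obtain ⟨j, rfl | rfl⟩ := k.eq_nat_or_neg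
    · rw [zpow_natCast]
      exact hCk j
    · have h1 : (cc (t ^ (-(j : ℤ))) M).relIndex M = M.relIndex (cc (t ^ j) M) := by
        have h2 : cc (t ^ j) (cc (t ^ (-(j : ℤ))) M) = M := by
          rw [← cc_mul, zpow_neg, zpow_natCast, mul_inv_cancel]
          ext z
          rw [mem_cc, inv_one, one_mul, mul_one]
        have h3 : (cc (t ^ j) (cc (t ^ (-(j : ℤ))) M)).relIndex (cc (t ^ j) M) =
            (cc (t ^ (-(j : ℤ))) M).relIndex M := Subgroup.relIndex_pointwise_smul _ _ _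
        rw [h2] at h3
        exact h3.symm
      rw [h1, humM _ (Subgroup.pow_mem _ htM j)]
      exact hCk j)
  exact ⟨M', hM'M.trans hMN, hmulM M' hM'M hM'i, hM't, hcov M' (hM'M.trans hMN)
    (hmulM M' hM'M hM'i)⟩

variable {G : Type} [Group G]

variable {P : ℕ → Type} [∀ i, AddCommGroup (P i)]
  [∀ i, Module (MonoidAlgebra ℤ G) (P i)] {d : ∀ i, P (i + 1) →ₗ[MonoidAlgebra ℤ G] P i}
  {ε : P 0 →+ ℤ}

theorem main_F' (hL : S_LNE) (hC : S_CNT) (hV : S_VNA)
    (hR : Reso P d ε) (m : ℕ) (hm : ∀ i, m < i → Subsingleton (P i))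
    [∀ i, Module.Finite (MonoidAlgebra ℤ G) (P i)]
    [∀ i, Module.Projective (MonoidAlgebra ℤ G) (P i)]
    (hcoh : ∀ i, i ≠ 3 → Subsingleton (groupCohomology (Rep.leftRegular ℤ G) i))
    (htop : Nonempty (groupCohomology (Rep.leftRegular ℤ G) 3 ≃+ ℤ))
    (N : Subgroup G) (ι : Type) [Finite ι] (A : ι → Subgroup G)
    (hinj : Function.Injective (Monoid.CoprodI.lift fun i => (A i).subtype))
    (hrange : (Monoid.CoprodI.lift fun i => (A i).subtype).range = N)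
    (hAfg : ∀ i, (A i).FG)
    (hA : ∀ i, Nonempty (A i ≃* Multiplicative ℤ) ∨
      Subsingleton (groupCohomology (Rep.leftRegular ℤ (A i)) 1))
    (i : ι) (hi : A i ≠ ⊥) (hone : Subsingleton (groupCohomology (Rep.leftRegular ℤ (A i)) 1))
    (t : G) (ht : t ∈ Subgroup.Commensurable.commensurator N)
    (hpow : ∀ k : ℤ, k ≠ 0 → t ^ k ∉ N) : A i = N ∧
    (∃ T : Finset G, ∀ g : G, ∃ x ∈ T, ∃ k : ℤ, ∃ a ∈ N, ∃ b ∈ N, g = x * (a * t ^ k * b)) ∧
    ∃ M : Subgroup G, M ≤ N ∧ M.relIndex N ≠ 0 ∧ (∀ x, x ∈ M ↔ t * x * t⁻¹ ∈ M) ∧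
      (M ⊔ Subgroup.zpowers t).FiniteIndex := by
  obtain ⟨hEq, hcov⟩ := main_Y hR m hm hcoh htop N ι A hinj hrange hAfg hA i hi hone t ht hpow
  refine ⟨hEq, hcov, ?_⟩
  obtain ⟨w, n, e0, e1, e2, e3, d0, d1, d2, hFull⟩ := exists_full hR m hm hcoh htop
  have hone' : AllDer (G := N) (RR N) := by
    have := allDer_RR hone
    rw [hEq] at this
    exact this
  have hum := (main_Z hR m hm hcoh htop N ι A hinj hrange hAfg hA i hi hone).2
  rw [hEq] at hi
  have hNfg : N.FG := by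
    rw [← hEq]
    exact hAfg i
  obtain ⟨M, hMN, hMi, hMt, hMc⟩ := fib_one hL hC hV hFull (fg_of_low hFull.low)
    (allDer_RR (hcoh 1 (by norm_num))) (tf_int hR m hm) hNfg hi hone' ht hpow hum
  refine ⟨M, hMN, hMi, fun x => ?_, index_of_cover le_sup_left
    ((le_sup_right : Subgroup.zpowers t ≤ M ⊔ Subgroup.zpowers t)
      (Subgroup.mem_zpowers t)) hMc⟩
  have h1 : t * x * t⁻¹ ∈ cc t M ↔ t * x * t⁻¹ ∈ M := by rw [hMt]
  rw [← h1, mem_cc]
  have h2 : t⁻¹ * (t * x * t⁻¹) * t = x := by group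
  rw [h2]

end

end Pool.Agent.J4H59.PL
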