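import Pool.Agent.J4H59.PL.MainF
import Pool.Agent.J4H82.CY.Vna
import Pool.Agent.J4H23.CY.Cnt
import Pool.Agent.J4H98.CY.Lne

/-!
# Elements of the commensurator: the final statement
-/

set_option autoImplicit false
set_option linter.unusedSectionVars false

open scoped Classical Pointwise

namespace Pool.Agent.J4H59.PL

open Pool.Agent.Helper386.PD3 Pool.Agent.J4H59.PD Pool.Agent.J4H59.PE Pool.Agent.J4H59.PF
open Pool.Agent.J4H59.PG Pool.Agent.J4H59.PI Pool.Agent.J4H59.PJ Pool.Agent.Helper158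

noncomputable section

variable {G : Type} [Group G]

variable {P : ℕ → Type} [∀ i, AddCommGroup (P i)]
  [∀ i, Module (MonoidAlgebra ℤ G) (P i)] {d : ∀ i, P (i + 1) →ₗ[MonoidAlgebra ℤ G] P i}
  {ε : P 0 →+ ℤ}

theorem main_G (hR : Reso P d ε) (m : ℕ) (hm : ∀ i, m < i → Subsingleton (P i))
    [∀ i, Module.Finite (MonoidAlgebra ℤ G) (P i)]
    [∀ i, Module.Projective (MonoidAlgebra ℤ G) (P i)]
    (hcoh : ∀ i, i ≠ 3 → Subsingleton (groupCohomology (Rep.leftRegular ℤ G) i))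
    (htop : Nonempty (groupCohomology (Rep.leftRegular ℤ G) 3 ≃+ ℤ))
    (N : Subgroup G) (ι : Type) [Finite ι] (A : ι → Subgroup G)
    (hinj : Function.Injective (Monoid.CoprodI.lift fun i => (A i).subtype))
    (hrange : (Monoid.CoprodI.lift fun i => (A i).subtype).range = N)
    (hAfg : ∀ i, (A i).FG)
    (hA : ∀ i, Nonempty (A i ≃* Multiplicative ℤ) ∨
      Subsingleton (groupCohomology (Rep.leftRegular ℤ (A i)) 1))
    (i : ι) (hi : A i ≠ ⊥) (hone : Subsingleton (groupCohomology (Rep.leftRegular ℤ (A i)) 1))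
    (t : G) (ht : t ∈ Subgroup.Commensurable.commensurator N)
    (hpow : ∀ k : ℤ, k ≠ 0 → t ^ k ∉ N) : A i = N ∧
    (∃ T : Finset G, ∀ g : G, ∃ x ∈ T, ∃ k : ℤ, ∃ a ∈ N, ∃ b ∈ N, g = x * (a * t ^ k * b)) ∧
    ∃ M : Subgroup G, M ≤ N ∧ M.relIndex N ≠ 0 ∧ (∀ x, x ∈ M ↔ t * x * t⁻¹ ∈ M) ∧
      (M ⊔ Subgroup.zpowers t).FiniteIndex :=
  main_F' Pool.Agent.J4H98.CY.t_LNE Pool.Agent.J4H23.CY.t_CNT Pool.Agent.J4H82.CY.t_VNA
    hR m hm hcoh htop N ι A hinj hrange hAfg hA i hi hone t ht hpow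

end

end Pool.Agent.J4H59.PL
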