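import Pool.Agent.J4H59.PL.Core
import Pool.Agent.J4H59.PK.MainC
import Pool.Agent.J4H69.CY.Tid
import Pool.Agent.J4H69.CY.Sec
import Pool.Agent.J4H69.CY.Dct
import Pool.Agent.J4H69.CY.Glu
import Pool.Agent.J4H12.CY.Ab
import Pool.Agent.J4H25.CY.One

/-!
# Elements of the commensurator
-/

set_option autoImplicit false
set_option linter.unusedSectionVars false

open scoped Classical Pointwise

namespace Pool.Agent.J4H59.PL

open Pool.Agent.Helper386.PD3 Pool.Agent.J4H59.PD Pool.Agent.J4H59.PE Pool.Agent.J4H59.PF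
open Pool.Agent.J4H59.PG Pool.Agent.J4H59.PI Pool.Agent.J4H59.PJ Pool.Agent.Helper158

noncomputable section

theorem core : S_CORE :=
  t_CORE (Pool.Agent.J4H12.CY.t_AB (Pool.Agent.J4H69.CY.t_LFT Pool.Agent.J4H69.CY.t_DCT)
    Pool.Agent.J4H12.CY.t_EX0') Pool.Agent.J4H69.CY.t_SEC
    (Pool.Agent.J4H69.CY.t_GLU Pool.Agent.J4H69.CY.t_DCT)

theorem one : S_ONE := Pool.Agent.J4H25.CY.t_ONE Pool.Agent.J4H69.CY.t_TID core

theorem fre : S_FRE := Pool.Agent.J4H25.CY.t_FRE Pool.Agent.J4H69.CY.t_TID one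

variable {G : Type} [Group G]

variable {P : ℕ → Type} [∀ i, AddCommGroup (P i)]
  [∀ i, Module (MonoidAlgebra ℤ G) (P i)] {d : ∀ i, P (i + 1) →ₗ[MonoidAlgebra ℤ G] P i}
  {ε : P 0 →+ ℤ}

theorem main_Y (hR : Reso P d ε) (m : ℕ) (hm : ∀ i, m < i → Subsingleton (P i))
    [∀ i, Module.Finite (MonoidAlgebra ℤ G) (P i)]
    [∀ i, Module.Projective (MonoidAlgebra ℤ G) (P i)]
    (hcoh : ∀ i, i ≠ 3 → Subsingleton (groupCohomology (Rep.leftRegular ℤ G) i))
    (htop : Nonempty (groupCohomology (Rep.leftRegular ℤ G) 3 ≃+ ℤ))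
    (N : Subgroup G) (ι : Type) [Finite ι] (A : ι → Subgroup G)
    (hinj : Function.Injective (Monoid.CoprodI.lift fun i => (A i).subtype))
    (hrange : (Monoid.CoprodI.lift fun i => (A i).subtype).range = N)
    (hAfg : ∀ i, (A i).FG)
    (hA : ∀ i, Nonempty (A i ≃* Multiplicative ℤ) ∨
      Subsingleton (groupCohomology (Rep.leftRegular ℤ (A i)) 1))
    (i : ι) (hi : A i ≠ ⊥) (hone : Subsingleton (groupCohomology (Rep.leftRegular ℤ (A i)) 1))
    (t : G) (ht : t ∈ Subgroup.Commensurable.commensurator N)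
    (hpow : ∀ k : ℤ, k ≠ 0 → t ^ k ∉ N) : A i = N ∧
    ∃ T : Finset G, ∀ g : G, ∃ x ∈ T, ∃ k : ℤ, ∃ a ∈ N, ∃ b ∈ N, g = x * (a * t ^ k * b) := by
  have hF : Fintype ι := Fintype.ofFinite ι
  have hle : ∀ i, A i ≤ N := by
    intro i a ha
    rw [← hrange]
    exact ⟨Monoid.CoprodI.of (M := fun i => A i) (i := i) ⟨a, ha⟩,
      Monoid.CoprodI.lift_of (fi := fun i => (A i).subtype) _⟩
  have hfree : IsFree fun i => (A i).subgroupOf N := by
    have h1 : N.subtype.comp (Monoid.CoprodI.lift fun i => Subgroup.inclusion (hle i)) =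
        Monoid.CoprodI.lift fun i => (A i).subtype := by
      refine Monoid.CoprodI.ext_hom _ _ fun i => ?_
      refine MonoidHom.ext fun a => ?_
      change ((Monoid.CoprodI.lift (fun i => Subgroup.inclusion (hle i))
        (Monoid.CoprodI.of a) : N) : G) =
        Monoid.CoprodI.lift (fun i => (A i).subtype) (Monoid.CoprodI.of a)
      rw [Monoid.CoprodI.lift_of, Monoid.CoprodI.lift_of]
      rfl
    refine ⟨fun i => A i, fun i => inferInstance, fun i => Subgroup.inclusion (hle i), fun i => ?_,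
      ?_, ?_⟩
    · ext x
      rw [Subgroup.mem_subgroupOf]
      constructor
      · rintro ⟨a, rfl⟩
        exact a.2
      · intro hx
        exact ⟨⟨x, hx⟩, rfl⟩
    · intro x y hxy
      apply hinj
      rw [← h1]
      change ((Monoid.CoprodI.lift (fun i => Subgroup.inclusion (hle i)) x : N) : G) =
        ((Monoid.CoprodI.lift (fun i => Subgroup.inclusion (hle i)) y : N) : G)
      rw [hxy]
    · intro x
      have h2 : (x : G) ∈ (Monoid.CoprodI.lift fun i => (A i).subtype).range := by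
        rw [hrange]
        exact x.2
      obtain ⟨v, hv⟩ := h2
      refine ⟨v, Subtype.ext ?_⟩
      rw [← hv, ← h1]
      rfl
  obtain ⟨w, n, e0, e1, e2, e3, d0, d1, d2, hFull⟩ := exists_full hR m hm hcoh htop
  have htf := tf_int hR m hm
  have hfp : FPd N A := fpd_of htf hle hfree
  have hA' : ∀ i, Nonempty (A i ≃* Multiplicative ℤ) ∨ AllDer (G := A i) (RR (A i)) := fun i =>
    (hA i).imp_right allDer_RR
  have hfgG : Group.FG G := fg_of_low hFull.low
  have hGD : AllDer (G := G) (RR G) := allDer_RR (hcoh 1 (by norm_num))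
  exact fre G n w e0 e1 e2 e3 d0 d1 d2 hFull hfgG hGD htf ι N A hfp hAfg hA' i hi
    (allDer_RR hone) t ht hpow

/-- the cover shows that subgroups have finite index -/
theorem index_of_cover {N H : Subgroup G} (hNH : N ≤ H) {t : G} (ht : t ∈ H)
    (h : ∃ T : Finset G, ∀ g : G, ∃ x ∈ T, ∃ k : ℤ, ∃ a ∈ N, ∃ b ∈ N, g = x * (a * t ^ k * b)) :
    H.FiniteIndex := by
  obtain ⟨T, hT⟩ := h
  have hfin : Finite (G ⧸ H) := by
    rw [← Set.finite_univ_iff]
    refine (T.finite_toSet.image fun g : G => (g : G ⧸ H)).subset ?_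
    intro a _
    induction a using QuotientGroup.induction_on with
    | H g =>
      obtain ⟨x, hx, k, a, ha, b, hb, rfl⟩ := hT g
      refine ⟨x, hx, ?_⟩
      change (x : G ⧸ H) = ((x * (a * t ^ k * b) : G) : G ⧸ H)
      rw [QuotientGroup.eq, inv_mul_cancel_left]
      exact H.mul_mem (H.mul_mem (hNH ha) (H.zpow_mem ht k)) (hNH hb)
  exact ⟨Subgroup.index_ne_zero_of_finite⟩

end

end Pool.Agent.J4H59.PL
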