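import Pool.Agent.J4H59.PL.Stm2
import Pool.Agent.J4H59.PK.ConeC

/-!
# Sets over finitely many translates
-/

set_option autoImplicit false
set_option linter.unusedSectionVars false

open scoped Classical

namespace Pool.Agent.J4H59.PL

open Pool.Agent.Helper386.PD3 Pool.Agent.J4H59.PD Pool.Agent.J4H59.PE Pool.Agent.J4H59.PF
open Pool.Agent.J4H59.PG Pool.Agent.J4H59.PI Pool.Agent.J4H59.PJ Pool.Agent.Helper158

noncomputable section

variable {G : Type} [Group G] {N H : Subgroup G} {I : Type} {R : Set (G ⧸ N)} {s s' : Set G}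

theorem Ov.union (h : Ov R s) (h' : Ov R s') : Ov R (s ∪ s') := by
  obtain ⟨T, hT⟩ := h
  obtain ⟨T', hT'⟩ := h'
  refine ⟨T ∪ T', fun c hc => ?_⟩
  rcases hc with hc | hc
  · obtain ⟨g, hg, h1⟩ := hT c hc
    exact ⟨g, Finset.mem_union_left _ hg, h1⟩
  · obtain ⟨g, hg, h1⟩ := hT' c hc
    exact ⟨g, Finset.mem_union_right _ hg, h1⟩

theorem Ov.sub (h : Ov R s) (hs : s' ⊆ s) : Ov R s' := by
  obtain ⟨T, hT⟩ := h
  exact ⟨T, fun c hc => hT c (hs hc)⟩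

theorem Ov.empty : Ov R (∅ : Set G) := ⟨∅, fun c hc => absurd hc (Set.notMem_empty c)⟩

theorem Ov.tr (h : Ov R s) (g : G) : Ov R {x | g⁻¹ * x ∈ s} := by
  obtain ⟨T, hT⟩ := h
  refine ⟨T.image fun x => g * x, fun c hc => ?_⟩
  obtain ⟨g', hg', h1⟩ := hT _ hc
  refine ⟨g * g', Finset.mem_image_of_mem _ hg', ?_⟩
  have h2 : (g * g')⁻¹ • (c : G ⧸ N) = g'⁻¹ • ((g⁻¹ * c : G) : G ⧸ N) := by
    change (((g * g')⁻¹ * c : G) : G ⧸ N) = ((g'⁻¹ * (g⁻¹ * c) : G) : G ⧸ N)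
    congr 1
    group
  rw [h2]
  exact h1

theorem Ov.biU {J : Type} {A : Set J} (hA : A.Finite) (f : J → Set G)
    (h : ∀ a, Ov R (f a)) : Ov R (⋃ a ∈ A, f a) := by
  choose T hT using h
  refine ⟨hA.toFinset.biUnion T, fun x hx => ?_⟩
  obtain ⟨a, ha, hx⟩ := Set.mem_iUnion₂.1 hx
  obtain ⟨g, hg, h1⟩ := hT a x hx
  exact ⟨g, Finset.mem_biUnion.2 ⟨a, hA.mem_toFinset.2 ha, hg⟩, h1⟩

theorem Ov.cell (h : Ov R s) : Ov R {x | ∃ n : N, x * n ∈ s} := by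
  obtain ⟨T, hT⟩ := h
  refine ⟨T, ?_⟩
  rintro x ⟨n, hn⟩
  obtain ⟨g, hg, h1⟩ := hT _ hn
  rw [mk_mulK x n.2] at h1
  exact ⟨g, hg, h1⟩

theorem Ov.cos (hNH : N ≤ H) (hR : ∀ c ∈ R, pu H c = ((1 : G) : G ⧸ H)) (h : Ov R s) :
    ((fun x : G => (x : G ⧸ H)) '' s).Finite := by
  obtain ⟨T, hT⟩ := h
  refine (T.finite_toSet.image fun g : G => (g : G ⧸ H)).subset ?_
  rintro _ ⟨c, hc, rfl⟩
  obtain ⟨g, hg, h⟩ := hT c hc
  refine ⟨g, hg, ?_⟩
  have h1 := hR _ h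
  rw [pu_smul hNH, pu_mk hNH, inv_smul_eq_iff] at h1
  change (g : G ⧸ H) = (c : G ⧸ H)
  rw [h1]
  change (g : G ⧸ H) = ((g * 1 : G) : G ⧸ H)
  rw [mul_one]

/-- the coboundary of `D` -/
theorem ov_D {S : Finset G} (hS : Subgroup.closure (S : Set G) = ⊤)
    {E : Set (G ⧸ H)} (hE : E.Finite) (D : Set G) (hDE : ∀ x ∈ D, (x : G ⧸ H) ∉ E)
    (hDq : ∀ a b, a ∈ D → EqG S H E a b → b ∈ D)
    (hT : ∀ a : G ⧸ H, Ov R {x | (x : G ⧸ H) = a ∧ x ∈ D}) (g : G) :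
    Ov R {x | ¬ (g⁻¹ * x ∈ D ↔ x ∈ D)} := by
  have hg : g ∈ Subgroup.closure (S : Set G) := by
    rw [hS]
    trivial
  induction hg using Subgroup.closure_induction with
  | mem s hs =>
    have h1 : Ov R (⋃ a ∈ (fun c => s • c) '' E, {x : G | (x : G ⧸ H) = a ∧ x ∈ D}) :=
      Ov.biU (hE.image _) _ hT
    have h2 : Ov R (⋃ a ∈ (fun c => s⁻¹ • c) '' E, {x : G | (x : G ⧸ H) = a ∧ x ∈ D}) :=
      Ov.biU (hE.image _) _ hT
    refine (h1.union (h2.tr s)).sub fun x hx => ?_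
    have hx : ¬ (s⁻¹ * x ∈ D ↔ x ∈ D) := hx
    by_cases hxD : x ∈ D
    · left
      have h3 : ((s⁻¹ * x : G) : G ⧸ H) ∈ E := by
        by_contra hcon
        apply hx
        refine ⟨fun _ => hxD, fun _ => ?_⟩
        refine hDq x _ hxD (EqG.symm (Relation.EqvGen.rel _ _ ⟨s, hs, ?_, hcon, hDE x hxD⟩))
        rw [mul_inv_cancel_left]
      refine Set.mem_iUnion₂.2 ⟨(x : G ⧸ H), ⟨_, h3, ?_⟩, rfl, hxD⟩
      change ((s * (s⁻¹ * x) : G) : G ⧸ H) = _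
      rw [mul_inv_cancel_left]
    · right
      have hsD : s⁻¹ * x ∈ D := by
        by_contra hcon
        exact hx ⟨fun h => absurd h hcon, fun h => absurd h hxD⟩
      have h3 : (x : G ⧸ H) ∈ E := by
        by_contra hcon
        apply hxD
        refine hDq _ x hsD (Relation.EqvGen.rel _ _ ⟨s, hs, ?_, hDE _ hsD, hcon⟩)
        rw [mul_inv_cancel_left]
      exact Set.mem_iUnion₂.2 ⟨((s⁻¹ * x : G) : G ⧸ H), ⟨_, h3, rfl⟩, rfl, hsD⟩
  | one =>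
    refine Ov.empty.sub fun x hx => hx ?_
    rw [inv_one, one_mul]
  | mul g h _ _ ihg ihh =>
    refine (ihg.union (ihh.tr g)).sub fun x hx => ?_
    by_contra hcon
    rw [Set.mem_union, not_or] at hcon
    have h1 : (g⁻¹ * x ∈ D ↔ x ∈ D) := not_not.1 hcon.1
    have h2 : (h⁻¹ * (g⁻¹ * x) ∈ D ↔ g⁻¹ * x ∈ D) := not_not.1 hcon.2
    apply hx
    rw [mul_inv_rev, mul_assoc]
    exact h2.trans h1
  | inv g _ ih =>
    refine (ih.tr g⁻¹).sub fun x hx => ?_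
    have hx : ¬ (g⁻¹⁻¹ * x ∈ D ↔ x ∈ D) := hx
    change ¬ (g⁻¹ * (g⁻¹⁻¹ * x) ∈ D ↔ g⁻¹⁻¹ * x ∈ D)
    rw [show g⁻¹ * (g⁻¹⁻¹ * x) = x by group]
    exact fun h1 => hx h1.symm

/-- sums over the cells -/
def av (N : Subgroup G) (α : G → ℚ) (y : G) : ℚ := ∑ᶠ n : N, α (y * n)

theorem av_mul {α : G → ℚ} (y : G) (n : N) : av N α (y * n) = av N α y := by
  unfold av
  rw [← finsum_comp_equiv (Equiv.mulLeft n) (f := fun k : N => α (y * k))]
  refine finsum_congr fun k => ?_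
  congr 1
  change y * n * k = y * ((n * k : N) : G)
  rw [Subgroup.coe_mul, mul_assoc]

theorem av_cell {α : G → ℚ} {y y' : G} (h : (y : G ⧸ N) = (y' : G ⧸ N)) :
    av N α y = av N α y' := by
  have h1 : y' = y * ((⟨y⁻¹ * y', QuotientGroup.eq.1 h⟩ : N) : G) := by
    change y' = y * (y⁻¹ * y')
    group
  rw [h1, av_mul]

theorem av_ne {α : G → ℚ} {y : G} (h : av N α y ≠ 0) : ∃ n : N, α (y * n) ≠ 0 := by
  by_contra hcon
  push Not at hcon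
  apply h
  unfold av
  rw [finsum_congr hcon, finsum_zero]

theorem av_diff {α : G → ℚ} {y g : G} (h : av N α (g⁻¹ * y) ≠ av N α y) :
    ∃ n : N, α (g⁻¹ * (y * n)) ≠ α (y * n) := by
  by_contra hcon
  push Not at hcon
  apply h
  unfold av
  refine finsum_congr fun n => ?_
  rw [mul_assoc]
  exact hcon n

theorem av_add {α β : G → ℚ} {y : G} (h : {n : N | α (y * n) ≠ 0}.Finite)
    (h' : {n : N | β (y * n) ≠ 0}.Finite) :
    av N (fun x => α x + β x) y = av N α y + av N β y :=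
  finsum_add_distrib h h'

end

end Pool.Agent.J4H59.PL
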