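import Pool.Agent.J4H59.PL.Ov

/-!
# The splitting of a potential
-/

set_option autoImplicit false
set_option linter.unusedSectionVars false

open scoped Classical

namespace Pool.Agent.J4H59.PL

open Pool.Agent.Helper386.PD3 Pool.Agent.J4H59.PD Pool.Agent.J4H59.PE Pool.Agent.J4H59.PF
open Pool.Agent.J4H59.PG Pool.Agent.J4H59.PI Pool.Agent.J4H59.PJ Pool.Agent.Helper158

noncomputable section

variable {G : Type} [Group G] {N H : Subgroup G} {I : Type} {R : Set (G ⧸ N)} {s s' : Set G}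

theorem vloc' (𝒱 : Vq N (OmI I G)) (m : FQ (OmI I G)) (δ : G → FQ (OmI I G))
    (hm : ∀ g z, m (g⁻¹ • z) - m z = δ g z)
    (hδ : ∀ g c, cutq {z | 𝒱.p z = c} (δ g) ∈ 𝒱.V) (c₀ : G ⧸ N)
    (hc₀ : ∀ z, 𝒱.p z = c₀ → m z = 0) (c : G ⧸ N) : cutq {z | 𝒱.p z = c} m ∈ 𝒱.V := by
  obtain ⟨g, hg⟩ := MulAction.exists_smul_eq G c₀ c
  have h1 : cutq {z | 𝒱.p z = c} m = -cutq {z | 𝒱.p z = c} (δ g) := by
    refine fq_ext fun z => ?_
    rw [fqneg_apply, cutq_apply, cutq_apply]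
    split_ifs with hz
    · have hz : 𝒱.p z = c := hz
      rw [← hm, hc₀ (g⁻¹ • z) (by rw [𝒱.hp, hz, ← hg, inv_smul_smul])]
      ring
    · exact neg_zero.symm
  rw [h1]
  exact neg_mem (hδ g c)

theorem mem_MQ' (𝒱 : Vq N (OmI I G)) (hp : ∀ x : OmI I G, 𝒱.p x = (x.2 : G ⧸ N))
    {f : FQ (OmI I G)} (h1 : ∀ c, cutq {z | 𝒱.p z = c} f ∈ 𝒱.V)
    (h3 : Ov R {x | ∃ i, f (omk i x) ≠ 0}) : f ∈ 𝒱.MQ (le_refl N) R := by
  refine ⟨h1, fun z => ?_, ?_⟩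
  · refine (Set.finite_singleton z).subset ?_
    rintro y ⟨-, hz⟩
    rw [puN] at hz
    exact hz
  · obtain ⟨T, hT⟩ := h3
    refine ⟨T, ?_⟩
    rintro ⟨i, x⟩ hx
    obtain ⟨g, hg, h⟩ := hT x ⟨i, hx⟩
    refine ⟨g, hg, ?_⟩
    change g⁻¹ • pu N (𝒱.p (omk i x)) ∈ R
    rw [puN, hp]
    exact h

theorem MQ_ov (𝒱 : Vq N (OmI I G)) (hp : ∀ x : OmI I G, 𝒱.p x = (x.2 : G ⧸ N))
    {f : FQ (OmI I G)} (h : f ∈ 𝒱.MQ (le_refl N) R) : Ov R {x | ∃ i, f (omk i x) ≠ 0} := by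
  obtain ⟨-, -, T, hT⟩ := h
  refine ⟨T, ?_⟩
  rintro x ⟨i, hx⟩
  obtain ⟨g, hg, h⟩ := hT (omk i x) hx
  rw [puN, hp] at h
  exact ⟨g, hg, h⟩

theorem MQ_loc (𝒱 : Vq N (OmI I G)) {f : FQ (OmI I G)} (h : f ∈ 𝒱.MQ (le_refl N) R)
    (c : G ⧸ N) : cutq {z | 𝒱.p z = c} f ∈ 𝒱.V := h.1 c

/-- multiplication of a potential by a function on the cells -/
def amul (A : G → ℚ) (m : FQ (OmI I G)) : FQ (OmI I G) := fun z => A z.2 * m z

theorem amul_loc (𝒱 : Vq N (OmI I G)) (hp : ∀ x : OmI I G, 𝒱.p x = (x.2 : G ⧸ N))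
    {m : FQ (OmI I G)} (hloc : ∀ c, cutq {z | 𝒱.p z = c} m ∈ 𝒱.V) (α : G → ℚ) (c : G ⧸ N) :
    cutq {z | 𝒱.p z = c} (amul (av N α) m) ∈ 𝒱.V := by
  induction c using QuotientGroup.induction_on with
  | H y =>
    have h1 : cutq {z | 𝒱.p z = (y : G ⧸ N)} (amul (av N α) m) =
        scq (av N α y) (cutq {z | 𝒱.p z = (y : G ⧸ N)} m) := by
      refine fq_ext fun z => ?_
      rw [scq_apply, cutq_apply, cutq_apply]
      split_ifs with hz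
      · have hz : 𝒱.p z = (y : G ⧸ N) := hz
        rw [hp] at hz
        change av N α z.2 * m z = av N α y * m z
        rw [av_cell hz]
      · exact (mul_zero _).symm
    rw [h1]
    exact 𝒱.hsc _ (hloc _) _

theorem gf_loc (𝒱 : Vq N (OmI I G)) {f : FQ (OmI I G)}
    (h : ∀ c, cutq {z | 𝒱.p z = c} f ∈ 𝒱.V) (g : G) (c : G ⧸ N) :
    cutq {z | 𝒱.p z = c} (gof g • f) ∈ 𝒱.V := by
  rw [𝒱.cut_gof]
  exact Submodule.smul_mem _ _ (h _)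

theorem cutq_sub' (s : Set (OmI I G)) (f f' : FQ (OmI I G)) :
    cutq s (f - f') = cutq s f - cutq s f' := by
  refine fq_ext fun z => ?_
  change cutq s (f - f') z = cutq s f z - cutq s f' z
  rw [cutq_apply, cutq_apply, cutq_apply]
  split_ifs
  · rfl
  · exact (sub_zero 0).symm

theorem sub_loc (𝒱 : Vq N (OmI I G)) {f f' : FQ (OmI I G)}
    (h : ∀ c, cutq {z | 𝒱.p z = c} f ∈ 𝒱.V) (h' : ∀ c, cutq {z | 𝒱.p z = c} f' ∈ 𝒱.V)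
    (c : G ⧸ N) : cutq {z | 𝒱.p z = c} (f - f') ∈ 𝒱.V := by
  rw [cutq_sub']
  exact sub_mem (h c) (h' c)

/-- one of the two parts -/
theorem part_A (𝒱 : Vq N (OmI I G)) (hp : ∀ x : OmI I G, 𝒱.p x = (x.2 : G ⧸ N)) (hNH : N ≤ H)
    {R' : Set (G ⧸ N)} (hR' : ∀ c ∈ R', pu H c = ((1 : G) : G ⧸ H))
    (m : FQ (OmI I G)) (δ : G → FQ (OmI I G)) (hδ : ∀ g, δ g ∈ 𝒱.MQ (le_refl N) R')
    (hm : ∀ g z, m (g⁻¹ • z) - m z = δ g z)
    (hloc : ∀ c, cutq {z | 𝒱.p z = c} m ∈ 𝒱.V) (α : G → ℚ)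
    (h1 : ∀ g : G, Ov R {x | α (g⁻¹ * x) ≠ α x})
    (h2 : ∀ a : G ⧸ H, Ov R {x | (x : G ⧸ H) = a ∧ α x ≠ 0}) (g : G) :
    gof g • amul (av N α) m - amul (av N α) m ∈ 𝒱.MQ (le_refl N) R := by
  refine mem_MQ' 𝒱 hp (sub_loc 𝒱 (gf_loc 𝒱 (amul_loc 𝒱 hp hloc α) g) (amul_loc 𝒱 hp hloc α)) ?_
  have hC := Ov.cos hNH hR' (MQ_ov 𝒱 hp (hδ g))
  have h3 : Ov R (⋃ a ∈ (fun x : G => (x : G ⧸ H)) '' {x | ∃ i, δ g (omk i x) ≠ 0},
      {x : G | ∃ n : N, x * n ∈ {x : G | (x : G ⧸ H) = a ∧ α x ≠ 0}}) :=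
    Ov.biU hC _ fun a => (h2 a).cell
  refine ((h1 g).cell.union h3).sub ?_
  rintro x ⟨i, hx⟩
  by_cases hA : av N α (g⁻¹ * x) = av N α x
  · right
    have h4 : (gof g • amul (av N α) m - amul (av N α) m) (omk i x) =
        av N α x * δ g (omk i x) := by
      change (gof g • amul (av N α) m) (omk i x) - amul (av N α) m (omk i x) = _
      rw [gofq_apply, ← hm]
      change av N α (g⁻¹ * x) * m (g⁻¹ • omk i x) - av N α x * m (omk i x) = _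
      rw [hA]
      ring
    rw [h4] at hx
    obtain ⟨n, hn⟩ := av_ne (left_ne_zero_of_mul hx)
    refine Set.mem_iUnion₂.2 ⟨(x : G ⧸ H), ⟨x, ⟨i, right_ne_zero_of_mul hx⟩, rfl⟩, n, ?_, hn⟩
    exact mk_mulK x (hNH n.2)
  · left
    exact av_diff hA

/-- The splitting, if the potential is in `V` over the cells. -/
theorem split_A (𝒱 : Vq N (OmI I G)) (hp : ∀ x : OmI I G, 𝒱.p x = (x.2 : G ⧸ N)) (hNH : N ≤ H)
    {Rp Rm : Set (G ⧸ N)}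
    (hR : ∀ c ∈ Rp ∪ Rm, pu H c = ((1 : G) : G ⧸ H))
    (m : FQ (OmI I G)) (δ : G → FQ (OmI I G)) (hδ : ∀ g, δ g ∈ 𝒱.MQ (le_refl N) (Rp ∪ Rm))
    (hm : ∀ g z, m (g⁻¹ • z) - m z = δ g z)
    (hloc : ∀ c, cutq {z | 𝒱.p z = c} m ∈ 𝒱.V)
    (hmT : ∀ a : G ⧸ H, Ov (Rp ∪ Rm) {x | (x : G ⧸ H) = a ∧ ∃ i, m (omk i x) ≠ 0})
    {E : Set (G ⧸ H)} (hE : E.Finite) (D : Set G)
    (hD1 : ∀ i x, m (omk i x) ≠ 0 → (x : G ⧸ H) ∉ E → ∃! n : N, x * n ∈ D)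
    {α β : G → ℚ} (hab : ∀ x, α x + β x = if x ∈ D then 1 else 0)
    (hα : ∀ y : G, {n : N | α (y * n) ≠ 0}.Finite) (hβ : ∀ y : G, {n : N | β (y * n) ≠ 0}.Finite)
    (hα1 : ∀ g : G, Ov Rp {x | α (g⁻¹ * x) ≠ α x})
    (hβ1 : ∀ g : G, Ov Rm {x | β (g⁻¹ * x) ≠ β x})
    (hα2 : ∀ a : G ⧸ H, Ov Rp {x | (x : G ⧸ H) = a ∧ α x ≠ 0})
    (hβ2 : ∀ a : G ⧸ H, Ov Rm {x | (x : G ⧸ H) = a ∧ β x ≠ 0}) :
    ∃ (δp δm : G → FQ (OmI I G)) (μ : FQ (OmI I G)), Der δp ∧ Der δm ∧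
      (∀ g, δp g ∈ 𝒱.MQ (le_refl N) Rp) ∧ (∀ g, δm g ∈ 𝒱.MQ (le_refl N) Rm) ∧
      μ ∈ 𝒱.MQ (le_refl N) (Rp ∪ Rm) ∧ ∀ g, δ g = δp g + δm g + (gof g • μ - μ) := by
  have hder : ∀ u : FQ (OmI I G), Der fun g : G => gof g • u - u := by
    intro u g h
    change gof (g * h) • u - u = gof g • u - u + gof g • (gof h • u - u)
    rw [gof_mul, mul_smul, smul_sub]
    abel
  have hδm : ∀ g, δ g = gof g • m - m := by
    intro g
    refine fq_ext fun z => ?_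
    rw [← hm g z]
    change _ = (gof g • m) z - m z
    rw [gofq_apply]
  refine ⟨fun g => gof g • amul (av N α) m - amul (av N α) m,
    fun g => gof g • amul (av N β) m - amul (av N β) m,
    m - amul (av N α) m - amul (av N β) m, hder _, hder _,
    part_A 𝒱 hp hNH hR m δ hδ hm hloc α hα1 hα2,
    part_A 𝒱 hp hNH hR m δ hδ hm hloc β hβ1 hβ2, ?_, fun g => ?_⟩
  · refine mem_MQ' 𝒱 hp (sub_loc 𝒱 (sub_loc 𝒱 hloc (amul_loc 𝒱 hp hloc α))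
      (amul_loc 𝒱 hp hloc β)) ?_
    refine (Ov.biU hE _ hmT).sub ?_
    rintro x ⟨i, hx⟩
    have h1 : (m - amul (av N α) m - amul (av N β) m) (omk i x) =
        (1 - (av N α x + av N β x)) * m (omk i x) := by
      change m (omk i x) - av N α x * m (omk i x) - av N β x * m (omk i x) = _
      ring
    rw [h1] at hx
    have hmx := right_ne_zero_of_mul hx
    refine Set.mem_iUnion₂.2 ⟨(x : G ⧸ H), ?_, rfl, i, hmx⟩
    by_contra hcon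
    apply left_ne_zero_of_mul hx
    rw [← av_add (hα x) (hβ x), sub_eq_zero, eq_comm]
    obtain ⟨n₀, hn₀, huniq⟩ := hD1 i x hmx hcon
    unfold av
    rw [finsum_eq_single _ n₀]
    · change α (x * n₀) + β (x * n₀) = 1
      rw [hab, if_pos hn₀]
    · intro n hn
      change α (x * n) + β (x * n) = 0
      rw [hab, if_neg fun h => hn (huniq n h)]
  · rw [hδm]
    simp only [smul_sub]
    abel

end

end Pool.Agent.J4H59.PL
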