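import Pool.Agent.J4H59.PI.Coh
import Pool.Agent.J4H59.PF.Glue
import Pool.Agent.J4H59.PE.S1

/-!
# Exact statements of the project CY: modules
-/

set_option autoImplicit false

open scoped Classical

namespace Pool.Agent.J4H59.PL

open Pool.Agent.Helper386.PD3 Pool.Agent.J4H59.PD Pool.Agent.J4H59.PE Pool.Agent.J4H59.PF

/-- derivations -/
def Der {G : Type} [Group G] {M : Type} [AddCommGroup M] [Module (RR G) M] (δ : G → M) : Prop :=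
  ∀ g h, δ (g * h) = δ g + gof g • δ h

/-- Job DCT: the dictionary between derivations and columns. -/
def S_DCT : Prop :=
  ∀ (G : Type) [Group G] (n : ℕ) (e0 e1 e2 d0 d1 : MR G n) (_ : Low e0 e1 e2 d0 d1),
    ∃ v : G → Fin n → RR G, ∀ (M : Type) [AddCommGroup M] [Module (RR G) M],
      (∀ φ : Fin n → M, col e1 φ = φ → col d1 φ = 0 → Der fun g => pr (v g) φ) ∧
      (∀ φ : Fin n → M, col e1 φ = φ → col d1 φ = 0 →
        (∃ μ : M, ∀ g, pr (v g) φ = gof g • μ - μ) → ∃ θ : Fin n → M, col d0 θ = φ) ∧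
      ∀ δ : G → M, Der δ → ∃ φ : Fin n → M, col e1 φ = φ ∧ col d1 φ = 0 ∧
        ∃ μ : M, ∀ g, pr (v g) φ = δ g + (gof g • μ - μ)

/-- Job LFT: derivations with values in a sum of two submodules -/
def S_LFT : Prop :=
  ∀ (G : Type) [Group G] (n : ℕ) (w : G →* ℤˣ) (e0 e1 e2 e3 d0 d1 d2 : MR G n)
    (_ : Full w e0 e1 e2 e3 d0 d1 d2) (F : Type) [AddCommGroup F] [Module (RR G) F]
    (A B : Submodule (RR G) F)
    (_ : ∀ ψ : Fin n → F, (∀ i, ψ i ∈ A ⊓ B) → col e2 ψ = ψ → col d2 ψ = 0 →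
      ∃ θ : Fin n → F, (∀ i, θ i ∈ A ⊓ B) ∧ col d1 θ = ψ)
    (D : G → F) (_ : Der D) (_ : ∀ g, D g ∈ A ⊔ B),
    ∃ E L : G → F, Der E ∧ Der L ∧ (∀ g, E g ∈ A) ∧ (∀ g, L g ∈ B) ∧ ∀ g, D g = E g + L g

/-- Job GLU: gluing, in terms of sums of derivations -/
def S_GLU : Prop :=
  ∀ (G : Type) [Group G] (n : ℕ) (w : G →* ℤˣ) (e0 e1 e2 e3 d0 d1 d2 : MR G n)
    (_ : Full w e0 e1 e2 e3 d0 d1 d2) (F : Type) [AddCommGroup F] [Module (RR G) F]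
    (Mp Mm Mi : Submodule (RR G) F) (_ : Mp ⊓ Mm = Mi) (hlp : Mi ≤ Mp) (hlm : Mi ≤ Mm)
    (_ : ResInner w hlp) (_ : ResInner w hlm)
    (_ : ∀ δ : G → F, Der δ → (∀ g, δ g ∈ Mp ⊔ Mm) →
      ∃ (δp δm : G → F) (μ : F), Der δp ∧ Der δm ∧ (∀ g, δp g ∈ Mp) ∧ (∀ g, δm g ∈ Mm) ∧
        μ ∈ Mp ⊔ Mm ∧ ∀ g, δ g = δp g + δm g + (gof g • μ - μ)),
    AllDer (G := G) (Du w Mi)

variable {G : Type} [Group G] {N : Subgroup G} {I : Type}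

/-- slices -/
def slc (F : FQ (G × OmI I G)) (x : G) : FQ (OmI I G) := fun z => F (x, z)

/-- Job EXF: exactness for functions with finitely many nonzero slices, all in `V` -/
def S_EXF : Prop :=
  ∀ (G : Type) [Group G] (N : Subgroup G) (I : Type) (𝒱 : Vq N (OmI I G))
    (n : ℕ) (w : G →* ℤˣ) (e0 e1 e2 e3 d0 d1 d2 : MR G n)
    (_ : Full w e0 e1 e2 e3 d0 d1 d2) (ψ : Fin n → FQ (G × OmI I G))
    (_ : ∀ i x, slc (ψ i) x ∈ 𝒱.V) (_ : ∀ i x z, ψ i (x, z) ≠ 0 → 𝒱.p z = (x : G ⧸ N))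
    (_ : ∀ i, {x : G | slc (ψ i) x ≠ 0}.Finite) (_ : col e2 ψ = ψ) (_ : col d2 ψ = 0),
    ∃ θ : Fin n → FQ (G × OmI I G), (∀ i x, slc (θ i) x ∈ 𝒱.V) ∧
      (∀ i x z, θ i (x, z) ≠ 0 → 𝒱.p z = (x : G ⧸ N)) ∧
      (∀ i, {x : G | slc (θ i) x ≠ 0}.Finite) ∧ col d1 θ = ψ

end Pool.Agent.J4H59.PL
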