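import Pool.Agent.J4H59.PL.Stm
import Pool.Agent.J4H59.PL.Dun
import Pool.Agent.J4H59.PJ.OneT

/-!
# Exact statements of the project CY, second part
-/

set_option autoImplicit false

open scoped Classical

namespace Pool.Agent.J4H59.PL

open Pool.Agent.Helper386.PD3 Pool.Agent.J4H59.PD Pool.Agent.J4H59.PE Pool.Agent.J4H59.PF
open Pool.Agent.J4H59.PG Pool.Agent.J4H59.PI Pool.Agent.J4H59.PJ Pool.Agent.Helper158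

/-- Job EX0: exactness for functions with finite support -/
def S_EX0 : Prop :=
  ∀ (G : Type) [Group G] (n : ℕ) (w : G →* ℤˣ) (e0 e1 e2 e3 d0 d1 d2 : MR G n)
    (_ : Full w e0 e1 e2 e3 d0 d1 d2) (ψ : Fin n → FQ (OmI Unit G))
    (_ : ∀ i, {z | ψ i z ≠ 0}.Finite) (_ : col e2 ψ = ψ) (_ : col d2 ψ = 0),
    ∃ θ : Fin n → FQ (OmI Unit G), (∀ i, {z | θ i z ≠ 0}.Finite) ∧ col d1 θ = ψ

/-- a set of elements over finitely many translates of `R` -/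
def Ov {G : Type} [Group G] {N : Subgroup G} (R : Set (G ⧸ N)) (s : Set G) : Prop :=
  ∃ T : Finset G, ∀ x ∈ s, ∃ g ∈ T, g⁻¹ • (x : G ⧸ N) ∈ R

/-- Job AB: splitting of the characteristic function of `D` -/
def S_AB : Prop :=
  ∀ (G : Type) [Group G] (n : ℕ) (w : G →* ℤˣ) (e0 e1 e2 e3 d0 d1 d2 : MR G n)
    (_ : Full w e0 e1 e2 e3 d0 d1 d2)
    (_ : ∀ (x : G) (k : ℤ), k ≠ 0 → x ^ k = 1 → x = 1)
    (N H : Subgroup G) (_ : N.FG) (_ : Infinite N) (_ : AllDer (G := N) (RR N)) (_ : N ≤ H)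
    (_ : ∀ u ∈ N, ∀ h ∈ H, ∃ e : ℕ, 0 < e ∧ (h⁻¹ * u * h) ^ e ∈ N)
    (Rp Rm : Set (G ⧸ N)) (_ : Rp.Nonempty) (_ : Rm.Nonempty)
    (_ : ∀ c ∈ Rp ∪ Rm, pu H c = ((1 : G) : G ⧸ H))
    (_ : ∀ n ∈ N, ∀ c ∈ Rp, n • c ∈ Rp) (_ : ∀ n ∈ N, ∀ c ∈ Rm, n • c ∈ Rm)
    (_ : ∀ g : G, {c | c ∈ Rp ∧ g • c ∈ Rm}.Finite)
    (D : Set G) (_ : ∀ x ∈ D, ∀ n ∈ N, x * n ∈ D → n = 1)
    (_ : ∀ g : G, Ov (Rp ∪ Rm) {x | ¬ (g⁻¹ * x ∈ D ↔ x ∈ D)}),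
    ∃ α β : G → ℚ, (∀ x, α x + β x = if x ∈ D then 1 else 0) ∧
      (∀ y : G, {n : N | α (y * n) ≠ 0}.Finite) ∧ (∀ y : G, {n : N | β (y * n) ≠ 0}.Finite) ∧
      (∀ g : G, Ov Rp {x | α (g⁻¹ * x) ≠ α x}) ∧ (∀ g : G, Ov Rm {x | β (g⁻¹ * x) ≠ β x}) ∧
      (∀ a : G ⧸ H, Ov Rp {x | (x : G ⧸ H) = a ∧ α x ≠ 0}) ∧
      ∀ a : G ⧸ H, Ov Rm {x | (x : G ⧸ H) = a ∧ β x ≠ 0}

/-- The main argument. -/
def S_CORE : Prop :=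
  ∀ (G : Type) [Group G] (n : ℕ) (w : G →* ℤˣ) (e0 e1 e2 e3 d0 d1 d2 : MR G n)
    (_ : Full w e0 e1 e2 e3 d0 d1 d2) (_ : Group.FG G) (_ : AllDer (G := G) (RR G))
    (_ : ∀ (x : G) (k : ℤ), k ≠ 0 → x ^ k = 1 → x = 1)
    (N H : Subgroup G) (_ : N.FG) (_ : Infinite N) (_ : AllDer (G := N) (RR N)) (_ : N ≤ H)
    (_ : ∀ h ∈ H, (As N h).index ≠ 0) (t : G) (_ : t ∈ H)
    (_ : ∀ k l c, c ∈ lvl N t k → c ∈ lvl N t l → k = l),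
    ∃ T : Finset G, ∀ y : G ⧸ N, ∃ g ∈ T, g⁻¹ • y ∈ RD N t

/-- Job ONE (`t_ONE : S_TID → S_CORE → S_ONE`): the case of one end. -/
def S_ONE : Prop :=
  ∀ (G : Type) [Group G] (n : ℕ) (w : G →* ℤˣ) (e0 e1 e2 e3 d0 d1 d2 : MR G n)
    (_ : Full w e0 e1 e2 e3 d0 d1 d2) (_ : Group.FG G) (_ : AllDer (G := G) (RR G))
    (_ : ∀ (x : G) (k : ℤ), k ≠ 0 → x ^ k = 1 → x = 1)
    (N : Subgroup G) (_ : N.FG) (_ : N ≠ ⊥) (_ : AllDer (G := N) (RR N)) (t : G)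
    (_ : t ∈ Subgroup.Commensurable.commensurator N) (_ : ∀ k : ℤ, k ≠ 0 → t ^ k ∉ N),
    ∃ T : Finset G, ∀ g : G, ∃ x ∈ T, ∃ k : ℤ, ∃ a ∈ N, ∃ b ∈ N, g = x * (a * t ^ k * b)

/-- Job FRE (`t_FRE : S_TID → S_ONE → S_FRE`): free products. -/
def S_FRE : Prop :=
  ∀ (G : Type) [Group G] (n : ℕ) (w : G →* ℤˣ) (e0 e1 e2 e3 d0 d1 d2 : MR G n)
    (_ : Full w e0 e1 e2 e3 d0 d1 d2) (_ : Group.FG G) (_ : AllDer (G := G) (RR G))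
    (_ : ∀ (x : G) (k : ℤ), k ≠ 0 → x ^ k = 1 → x = 1)
    (ι : Type) [Finite ι] (N : Subgroup G) (A : ι → Subgroup G) (_ : FPd N A)
    (_ : ∀ i, (A i).FG)
    (_ : ∀ i, Nonempty (A i ≃* Multiplicative ℤ) ∨ AllDer (G := A i) (RR (A i)))
    (i : ι) (_ : A i ≠ ⊥) (_ : AllDer (G := A i) (RR (A i))) (t : G)
    (_ : t ∈ Subgroup.Commensurable.commensurator N) (_ : ∀ k : ℤ, k ≠ 0 → t ^ k ∉ N),
    A i = N ∧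
    ∃ T : Finset G, ∀ g : G, ∃ x ∈ T, ∃ k : ℤ, ∃ a ∈ N, ∃ b ∈ N, g = x * (a * t ^ k * b)

end Pool.Agent.J4H59.PL
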